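import Pool.Agent.H58.BH.Defs
import Pool.Agent.H65.BP.Cert

set_option autoImplicit false

/-!
# Worlds, legal worlds and certificates
-/

namespace Pool.Agent.H58.BH

open Pool.Agent.H88.RO Pool.Agent.H88.RO.Tr Pool.Agent.H65.TS Pool.Agent.H65.BP

/-- The oracle given by a world `ω` (the values of the names): `0 v` asks for the value of the
name `v`, and `1 v` for the value of the decision tree `β v`. -/
def orc (β : List Bool → DT (List Bool)) (ω : List Bool → Bool) : List Bool → Bool
  | [] => false
  | false :: v => ω v
  | true :: v => (β v).eval ω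

/-- the input of an instance, without padding -/
def zy (z : List Bool) : List Bool := (prs (zx z)).2

/-- the universal NP-complete set (with clocks at most the square root of the length) -/
def KK (β : List Bool → DT (List Bool)) (ω : List Bool → Bool) (z : List Bool) : Prop :=
  zK z * zK z ≤ z.length ∧ ∃ y, Usol (orc β ω) (zi z) (zK z) (zN z) (zy z) y

/-- `ω'` agrees with `ω` on `D` -/
def Ag (D : Finset (List Bool)) (ω ω' : List Bool → Bool) : Prop := ∀ v ∈ D, ω' v = ω v

theorem Ag.mono {D D' : Finset (List Bool)} {ω ω' : List Bool → Bool} (h : Ag D ω ω')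
    (hD : D' ⊆ D) : Ag D' ω ω' := fun v hv => h v (hD hv)

theorem Ag.trans {D : Finset (List Bool)} {ω ω' ω'' : List Bool → Bool} (h : Ag D ω ω')
    (h' : Ag D ω' ω'') : Ag D ω ω'' := fun v hv => (h' v hv).trans (h v hv)

theorem Ag.symm {D : Finset (List Bool)} {ω ω' : List Bool → Bool} (h : Ag D ω ω') :
    Ag D ω' ω := fun v hv => (h v hv).symm

theorem Ag.refl (D : Finset (List Bool)) (ω : List Bool → Bool) : Ag D ω ω := fun _ _ => rfl

/-- the `V`-names of strings shorter than `n` are only true for members of `KK` -/
def LegB (β : List Bool → DT (List Bool)) (n : ℕ) (ω : List Bool → Bool) : Prop :=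
  ∀ z : List Bool, z.length < n → ω (true :: z) = true → KK β ω z

/-- legal worlds: the `V`-names are only true for members of `KK` -/
def Leg (β : List Bool → DT (List Bool)) (ω : List Bool → Bool) : Prop :=
  ∀ z : List Bool, ω (true :: z) = true → KK β ω z

theorem Leg.b {β : List Bool → DT (List Bool)} {ω : List Bool → Bool} (h : Leg β ω) (n : ℕ) :
    LegB β n ω := fun z _ hz => h z hz

/-- `D` is closed: agreement on `D` implies the legality of the true `V`-names in `D` -/
def Cl (β : List Bool → DT (List Bool)) (D : Finset (List Bool)) (ω : List Bool → Bool) : Prop :=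
  ∀ z : List Bool, true :: z ∈ D → ω (true :: z) = true → ∀ ω', Ag D ω ω' → KK β ω' z

/-- the tree `T` is small for the length `n` -/
def Sm (T : DT (List Bool)) (n : ℕ) : Prop :=
  ∃ r, r * r ≤ n ∧ T.depth ≤ r ∧ ∀ p ∈ T.support, p.length < r

theorem KK_congr {β β' : List Bool → DT (List Bool)} {ω ω' : List Bool → Bool} {z : List Bool}
    (h : ∀ q : List Bool, q.length ≤ zK z → orc β' ω' q = orc β ω q) :
    KK β' ω' z ↔ KK β ω z := by
  unfold KK
  simp only [Usol_congr h]

theorem zK_le (z : List Bool) : zK z ≤ z.length := by
  have := z_le z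
  omega

theorem orc_local {β : List Bool → DT (List Bool)} (hβ : ∀ v, Sm (β v) v.length)
    {ω ω' : List Bool → Bool} {w : List Bool} (h : ∀ p : List Bool, p.length < w.length → ω' p = ω p) :
    orc β ω' w = orc β ω w := by
  rcases w with _ | ⟨b, v⟩
  · rfl
  · cases b with
    | false => exact h v (by simp)
    | true =>
      obtain ⟨r, h1, h2, h3⟩ := hβ v
      refine (DT.agree (X := ω) (Y := ω') (t := β v) (fun p hp => (h p ?_).symm)).2
      have h4 := h3 p (DT.mem_support hp)
      have h5 : r ≤ v.length := le_trans (by nlinarith) h1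
      rw [List.length_cons]
      omega

theorem KK_local {β : List Bool → DT (List Bool)} (hβ : ∀ v, Sm (β v) v.length)
    {ω ω' : List Bool → Bool} {z : List Bool} (h : ∀ p : List Bool, p.length < z.length → ω' p = ω p) :
    KK β ω' z ↔ KK β ω z :=
  KK_congr (fun q hq => orc_local hβ (fun p hp => h p (by
    have := zK_le z
    omega)))

/-- **Closed certificates**: in a legal world, the answer of the oracle to a question of length
`n` is determined by a closed set of at most `n` names. -/
theorem exists_cert {β : List Bool → DT (List Bool)} (hβ : ∀ v, Sm (β v) v.length) {n : ℕ}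
    {ω : List Bool → Bool} (hω : LegB β n ω) :
    ∀ w : List Bool, w.length ≤ n → ∃ D : Finset (List Bool), D.card ≤ w.length ∧
      (∀ v ∈ D, v.length < w.length) ∧ Cl β D ω ∧ ∀ ω', Ag D ω ω' → orc β ω' w = orc β ω w := by
  classical
  -- the union of certificates
  have hU : ∀ (Q : Finset (List Bool)) (m : ℕ), (∀ q ∈ Q, q.length ≤ m) →
      (∀ q ∈ Q, ∃ D : Finset (List Bool), D.card ≤ q.length ∧
      (∀ v ∈ D, v.length < q.length) ∧ Cl β D ω ∧ ∀ ω', Ag D ω ω' → orc β ω' q = orc β ω q) →
      ∃ D : Finset (List Bool), D.card ≤ Q.card * m ∧ (∀ v ∈ D, v.length < m) ∧ Cl β D ω ∧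
        ∀ ω', Ag D ω ω' → ∀ q ∈ Q, orc β ω' q = orc β ω q := by
    intro Q m hm hQ
    choose! f hf1 hf2 hf3 hf4 using hQ
    refine ⟨Q.biUnion f, ?_, ?_, ?_, ?_⟩
    · exact Finset.card_biUnion_le_card_mul _ _ _ (fun q hq => (hf1 q hq).trans (hm q hq))
    · intro v hv
      rw [Finset.mem_biUnion] at hv
      obtain ⟨q, hq, hv⟩ := hv
      exact lt_of_lt_of_le (hf2 q hq v hv) (hm q hq)
    · intro z hz hzt ω' hω'
      rw [Finset.mem_biUnion] at hz
      obtain ⟨q, hq, hz⟩ := hz
      exact hf3 q hq z hz hzt ω' (hω'.mono (Finset.subset_biUnion_of_mem f hq))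
    · intro ω' hω' q hq
      exact hf4 q hq ω' (hω'.mono (Finset.subset_biUnion_of_mem f hq))
  intro w
  induction hw : w.length using Nat.strong_induction_on generalizing w with
  | _ m ih =>
    subst hw
    intro hn
    rcases w with _ | ⟨b, v⟩
    · exact ⟨∅, by simp, by simp, fun z hz => by simp at hz, fun _ _ => rfl⟩
    · rw [List.length_cons] at hn ⊢
      cases b with
      | false =>
        by_cases hv : ∃ z, v = true :: z ∧ ω v = true
        · obtain ⟨z, rfl, hz⟩ := hv
          rw [List.length_cons] at hn ⊢
          obtain ⟨hb, y, hy1, hy2⟩ := hω z (by omega) hz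
          obtain ⟨Q, hQ1, hQ2, hQ3⟩ := U_local (orc β ω) (mach (zi z))
            (node (enc (zy z)) (enc y)) (zK z)
          have hzl := zK_le z
          obtain ⟨D, hD1, hD2, hD3, hD4⟩ := hU Q (zK z) hQ2 (fun q hq => by
            have := hQ2 q hq
            exact ih q.length (by rw [List.length_cons, List.length_cons]; omega) q rfl (by omega))
          have hkey : ∀ ω', Ag D ω ω' → KK β ω' z := by
            intro ω' hω'
            refine ⟨hb, y, hy1, ?_⟩
            rw [hQ3 (orc β ω') (hD4 ω' hω')]
            exact hy2
          refine ⟨insert (true :: z) D, ?_, ?_, ?_, ?_⟩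
          · have h1 : D.card ≤ zK z * zK z := hD1.trans (Nat.mul_le_mul_right _ hQ1)
            have := Finset.card_insert_le (true :: z) D
            omega
          · intro v hv
            rw [Finset.mem_insert] at hv
            rcases hv with rfl | hv
            · simp
            · have := hD2 v hv
              omega
          · intro z' hz' hzt ω' hω'
            have hD' : Ag D ω ω' := hω'.mono (Finset.subset_insert _ _)
            rw [Finset.mem_insert] at hz'
            rcases hz' with hz' | hz'
            · injection hz' with _ hz'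
              subst hz'
              exact hkey ω' hD'
            · exact hD3 z' hz' hzt ω' hD'
          · intro ω' hω'
            exact hω' _ (Finset.mem_insert_self _ _)
        · refine ⟨{v}, by simp, by simp, fun z hz hzt => ?_, fun ω' hω' => ?_⟩
          · rw [Finset.mem_singleton] at hz
            exact absurd ⟨z, hz.symm, by rw [← hz]; exact hzt⟩ hv
          · exact hω' v (Finset.mem_singleton_self v)
      | true =>
        obtain ⟨r, h1, h2, h3⟩ := hβ v
        have h5 : r ≤ v.length := le_trans (by nlinarith) h1
        have hpath : ∀ p ∈ (β v).path ω, p.length < r := fun p hp => h3 p (DT.mem_support hp)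
        obtain ⟨D, hD1, hD2, hD3, hD4⟩ := hU
          (((β v).path ω).toFinset.image (fun p => false :: p)) r (fun q hq => by
            rw [Finset.mem_image] at hq
            obtain ⟨p, hp, rfl⟩ := hq
            rw [List.mem_toFinset] at hp
            have := hpath p hp
            rw [List.length_cons]; omega) (fun q hq => by
            rw [Finset.mem_image] at hq
            obtain ⟨p, hp, rfl⟩ := hq
            rw [List.mem_toFinset] at hp
            have := hpath p hp
            exact ih _ (by rw [List.length_cons, List.length_cons]; omega) (false :: p) rfl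
              (by rw [List.length_cons]; omega))
        have hcard : (((β v).path ω).toFinset.image (fun p => false :: p)).card ≤ r :=
          Finset.card_image_le.trans ((List.toFinset_card_le _).trans
            ((DT.path_length_le ω (β v)).trans h2))
        refine ⟨D, ?_, ?_, hD3, ?_⟩
        · have := hD1.trans (Nat.mul_le_mul_right r hcard)
          omega
        · intro p hp
          have := hD2 p hp
          omega
        · intro ω' hω'
          refine (DT.agree (X := ω) (Y := ω') (t := β v) (fun p hp => ?_)).2
          exact (hD4 ω' hω' (false :: p)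
            (Finset.mem_image_of_mem _ (List.mem_toFinset.mpr hp))).symm

/-- closed certificates for clocked computations -/
theorem exists_cert_U {β : List Bool → DT (List Bool)} (hβ : ∀ v, Sm (β v) v.length) {n : ℕ}
    {ω : List Bool → Bool} (hω : LegB β n ω) (c v : Tr) (k : ℕ) (hk : k ≤ n) :
    ∃ D : Finset (List Bool), D.card ≤ k * k ∧ (∀ v ∈ D, v.length < k) ∧ Cl β D ω ∧
      ∀ ω', Ag D ω ω' → U (orc β ω') c v k = U (orc β ω) c v k := by
  classical
  obtain ⟨Q, hQ1, hQ2, hQ3⟩ := U_local (orc β ω) c v k
  have h : ∀ q ∈ Q, ∃ D : Finset (List Bool), D.card ≤ q.length ∧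
      (∀ v ∈ D, v.length < q.length) ∧ Cl β D ω ∧ ∀ ω', Ag D ω ω' → orc β ω' q = orc β ω q :=
    fun q hq => exists_cert hβ hω q ((hQ2 q hq).trans hk)
  choose! f hf1 hf2 hf3 hf4 using h
  refine ⟨Q.biUnion f, ?_, ?_, ?_, ?_⟩
  · refine (Finset.card_biUnion_le_card_mul _ _ k
      (fun q hq => (hf1 q hq).trans (hQ2 q hq))).trans (Nat.mul_le_mul_right _ hQ1)
  · intro v hv
    rw [Finset.mem_biUnion] at hv
    obtain ⟨q, hq, hv⟩ := hv
    exact lt_of_lt_of_le (hf2 q hq v hv) (hQ2 q hq)
  · intro z hz hzt ω' hω'
    rw [Finset.mem_biUnion] at hz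
    obtain ⟨q, hq, hz⟩ := hz
    exact hf3 q hq z hz hzt ω' (hω'.mono (Finset.subset_biUnion_of_mem f hq))
  · intro ω' hω'
    exact hQ3 _ (fun q hq => hf4 q hq ω' (hω'.mono (Finset.subset_biUnion_of_mem f hq)))

/-- **Amalgamation.** -/
theorem amalgam {β : List Bool → DT (List Bool)} {D E : Finset (List Bool)}
    {ω ω' : List Bool → Bool} (hD : Cl β D ω) (hE : Cl β E ω')
    (h : ∀ v ∈ D, v ∈ E → ω v = ω' v) :
    ∃ W, Leg β W ∧ Ag D ω W ∧ Ag E ω' W := by
  classical
  let W : List Bool → Bool := fun v => if v ∈ D then ω v else if v ∈ E then ω' v else false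
  have h1 : Ag D ω W := fun v hv => by simp [W, hv]
  have h2 : Ag E ω' W := fun v hv => by
    by_cases hvD : v ∈ D
    · simp only [W, hvD, if_true]; exact h v hvD hv
    · simp [W, hvD, hv]
  refine ⟨W, fun z hz => ?_, h1, h2⟩
  by_cases hvD : true :: z ∈ D
  · exact hD z hvD (by rw [← h1 _ hvD]; exact hz) W h1
  · by_cases hvE : true :: z ∈ E
    · exact hE z hvE (by rw [← h2 _ hvE]; exact hz) W h2
    · simp [W, hvD, hvE] at hz

open Classical in
/-- approximations to the exact completion -/
noncomputable def cmp (β : List Bool → DT (List Bool)) (D : Finset (List Bool))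
    (ω : List Bool → Bool) : ℕ → List Bool → Bool
  | 0, _ => false
  | k + 1, v => if v ∈ D then ω v else
      match v with
      | true :: z => decide (KK β (cmp β D ω k) z)
      | _ => false

theorem cmp_stable {β : List Bool → DT (List Bool)} (hβ : ∀ v, Sm (β v) v.length)
    (D : Finset (List Bool)) (ω : List Bool → Bool) :
    ∀ (v : List Bool) (k : ℕ), v.length < k → cmp β D ω k v = cmp β D ω (v.length + 1) v := by
  intro v
  induction hv : v.length using Nat.strong_induction_on generalizing v with
  | _ m ih =>
    subst hv
    intro k hk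
    obtain ⟨k, rfl⟩ : ∃ k', k = k' + 1 := ⟨k - 1, by omega⟩
    simp only [cmp]
    split_ifs with h
    · rfl
    · rcases v with _ | ⟨b, z⟩
      · rfl
      · cases b with
        | false => rfl
        | true =>
          have key : KK β (cmp β D ω k) z ↔ KK β (cmp β D ω (true :: z).length) z := by
            apply KK_local hβ
            intro p hp
            rw [ih p.length (by rw [List.length_cons]; omega) p rfl k (by
              rw [List.length_cons] at hk; omega),
              ih p.length (by rw [List.length_cons]; omega) p rfl (true :: z).length (by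
              rw [List.length_cons]; omega)]
          exact decide_eq_decide.mpr key

/-- **Completion**: a closed partial world extends to a legal world which is exact outside. -/
theorem completion {β : List Bool → DT (List Bool)} (hβ : ∀ v, Sm (β v) v.length)
    {D : Finset (List Bool)} {ω : List Bool → Bool} (hD : Cl β D ω) :
    ∃ W, Leg β W ∧ Ag D ω W ∧ (∀ z, true :: z ∉ D → (W (true :: z) = true ↔ KK β W z)) ∧
      ∀ v ∉ D, (∀ z, v ≠ true :: z) → W v = false := by
  classical
  let W : List Bool → Bool := fun v => cmp β D ω (v.length + 1) v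
  have hag : Ag D ω W := fun v hv => by simp [W, cmp, hv]
  have hex : ∀ z, true :: z ∉ D → (W (true :: z) = true ↔ KK β W z) := by
    intro z hz
    have key : KK β (cmp β D ω (z.length + 1)) z ↔ KK β W z := by
      apply KK_local hβ
      intro p hp
      exact cmp_stable hβ D ω p _ (by omega)
    have e : W (true :: z) = decide (KK β (cmp β D ω (z.length + 1)) z) := by
      show cmp β D ω ((true :: z).length + 1) (true :: z) = _
      simp only [cmp, List.length_cons, hz, if_false]
    rw [e, decide_eq_true_eq, key]
  refine ⟨W, fun z hz => ?_, hag, hex, fun v hv hne => ?_⟩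
  · by_cases hzD : true :: z ∈ D
    · exact hD z hzD (by rw [← hag _ hzD]; exact hz) W hag
    · exact (hex z hzD).mp hz
  · show cmp β D ω (v.length + 1) v = false
    rcases v with _ | ⟨b, z⟩
    · simp only [cmp, hv, if_false]
    · cases b with
      | false => simp only [cmp, hv, if_false]
      | true => exact absurd rfl (hne z)

end Pool.Agent.H58.BH
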