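import Pool.Agent.H65.TS.Univ

set_option autoImplicit false

/-!
# NP-completeness, isomorphisms and one-way functions relative to an oracle

Polynomial time relative to an oracle `O` is defined in `Pool.Agent.H88.RO.Model` (a small
programming language on binary trees with an instruction which asks the oracle, and a cost
semantics), and NP relative to `O` (`InNP`) in `Pool.Agent.H65.TS.Base`.
-/

namespace Pool.Agent.H58.BH

open Pool.Agent.H88.RO Pool.Agent.H88.RO.Tr Pool.Agent.H65.TS

open Classical in
/-- With oracle `O`, program `c` decides membership in `L` correctly within cost `T` for all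
strings of length `n`. -/
def DecidesAt (O : List Bool → Bool) (c : Prog) (T : ℕ) (L : Set (List Bool)) (n : ℕ) : Prop :=
  ∀ x : List Bool, x.length = n → ∃ t ≤ T, Eval O c (enc x) (bit (decide (x ∈ L))) t

/-- The set of strings `L` is in P relative to the oracle `O`. -/
def InP (O : List Bool → Bool) (L : Set (List Bool)) : Prop :=
  ∃ (c : Prog) (q : Polynomial ℕ), ∀ n, DecidesAt O c (q.eval n) L n

/-- `L` is hard at almost every length for time `t`: for every program `c` and every polynomial
`q`, for all but finitely many `n`, the program `c` does not decide `L` at length `n` within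
cost `q(t(n))`. -/
def HardAE (O : List Bool → Bool) (t : ℕ → ℕ) (L : Set (List Bool)) : Prop :=
  ∀ (c : Prog) (q : Polynomial ℕ), ∃ n₀, ∀ n ≥ n₀, ¬ DecidesAt O c (q.eval (t n)) L n

/-- Polynomial time many-one reducibility relative to `O`. -/
def Reduces (O : List Bool → Bool) (A B : Set (List Bool)) : Prop :=
  ∃ f : List Bool → List Bool, PolyTimeFun O f ∧ ∀ x, x ∈ A ↔ f x ∈ B

/-- `A` is NP-complete relative to `O`. -/
def NPComplete (O : List Bool → Bool) (A : Set (List Bool)) : Prop :=
  InNP O A ∧ ∀ B, InNP O B → Reduces O B A

/-- Polynomial time isomorphism relative to `O`. -/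
def PIso (O : List Bool → Bool) (A B : Set (List Bool)) : Prop :=
  ∃ h : List Bool ≃ List Bool, PolyTimeFun O h ∧ PolyTimeFun O h.symm ∧ ∀ x, x ∈ A ↔ h x ∈ B

/-- The Berman-Hartmanis conjecture relative to `O`. -/
def BermanHartmanis (O : List Bool → Bool) : Prop :=
  ∀ A B, NPComplete O A → NPComplete O B → PIso O A B

/-- `f` is a one-way function relative to `O`: it is injective, computable in polynomial time and
honest, but no polynomial time function inverts it. -/
def OneWay (O : List Bool → Bool) (f : List Bool → List Bool) : Prop :=
  Function.Injective f ∧ PolyTimeFun O f ∧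
    (∃ p : Polynomial ℕ, ∀ x, x.length ≤ p.eval (f x).length) ∧
    ¬ ∃ g : List Bool → List Bool, PolyTimeFun O g ∧ ∀ x, g (f x) = x

end Pool.Agent.H58.BH
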