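import Pool.Agent.H58.BH.Inv

set_option autoImplicit false

/-!
# The theorem
-/

namespace Pool.Agent.H58.BH

open Pool.Agent.H88.RO Pool.Agent.H88.RO.Tr Pool.Agent.H65.TS Pool.Agent.H65.BP

variable {O : List Bool → Bool}

theorem DecidesAt.mono {c : Prog} {T T' : ℕ} (h : T ≤ T') {L : Set (List Bool)} {n : ℕ}
    (hd : DecidesAt O c T L n) : DecidesAt O c T' L n := fun x hx => by
  obtain ⟨t, ht, he⟩ := hd x hx
  exact ⟨t, ht.trans h, he⟩

theorem HardAE.mono {t t' : ℕ → ℕ} (h : ∀ n, t n ≤ t' n) {L : Set (List Bool)}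
    (hL : HardAE O t' L) : HardAE O t L := fun c q => by
  obtain ⟨n₀, hn₀⟩ := hL c q
  exact ⟨n₀, fun n hn hd => hn₀ n hn (hd.mono (poly_mono q (h n)))⟩

theorem HardAE.not_inP {t : ℕ → ℕ} (h : ∀ n, n ≤ t n) {L : Set (List Bool)}
    (hL : HardAE O t L) : ¬ InP O L := by
  rintro ⟨c, q, hc⟩
  obtain ⟨n₀, hn₀⟩ := hL c q
  exact hn₀ n₀ le_rfl ((hc n₀).mono (poly_mono q (h n₀)))

theorem inNP_univ : InNP O Set.univ := by
  refine ⟨fun _ _ => true, 0, ?_, fun x => ?_⟩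
  · exact polyTimeRel_of_FP (F := fun _ => tt) (FP.const' _) (fun x y => by simp)
  · simp only [Set.mem_univ, and_true, true_iff]
    exact ⟨[], by simp⟩

theorem sub_id {t : ℕ → ℕ} (h : ∀ k, ∃ n₀, ∀ n ≥ n₀, t (n ^ k) ≤ 2 ^ n) (k : ℕ) :
    ∃ n₀, ∀ n ≥ n₀, max (t (n ^ k)) (n ^ k) ≤ 2 ^ n := by
  obtain ⟨n₁, h₁⟩ := h k
  obtain ⟨n₂, h₂⟩ := ev_poly k
  refine ⟨max n₁ n₂, fun n hn => max_le (h₁ n (by omega)) ?_⟩
  have a1 : n ^ k ≤ (n + 2) ^ k := Nat.pow_le_pow_left (by omega) k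
  have a2 : (n + 2) ^ k ≤ 2 ^ (n / 64) := h₂ n (by omega)
  have a3 : 2 ^ (n / 64) ≤ 2 ^ n := Nat.pow_le_pow_right (by norm_num) (by omega)
  omega

/-- there is no injective map of polynomial growth from `KK` to the thin set -/
theorem no_map {β : List Bool → DT (List Bool)} {Ω : List Bool → Bool}
    (hden : ∀ d m₀ : ℕ, ∃ m ≥ m₀, ∃ F : Finset (List Bool), F.card < 2 ^ m ∧
      ∀ z, z.length + 2 ≤ (m + 2) ^ d → KK β Ω z → Ω (true :: z) = false → true :: z ∈ F)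
    {f : List Bool → List Bool} (hf : Function.Injective f) {p : Polynomial ℕ}
    (hp : ∀ x, (f x).length ≤ p.eval x.length) (hfK : ∀ x, x ∈ {z | KK β Ω z} ↔ f x ∈ CC β Ω) :
    False := by
  classical
  obtain ⟨i, k, n, h⟩ := exists_index_np (inNP_univ (O := orc β Ω))
  have hK : ∀ x, KK β Ω (red i k n x) := fun x =>
    (KK_red β Ω i k n x).mpr ((h x _ le_rfl).mpr (Set.mem_univ _))
  obtain ⟨r, hr⟩ := PolyTimeFun.length_le (polyTimeFun_red (orc β Ω) i k n)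
  obtain ⟨e, he⟩ := poly_le (p.comp r + 2)
  obtain ⟨m, -, F, hF1, hF2⟩ := hden e 0
  have h1 : (strs m).card ≤ F.card := by
    refine Finset.card_le_card_of_injOn (fun x => true :: f (red i k n x)) (fun x hx => ?_)
      (fun x _ y _ hxy => ?_)
    · rw [Finset.mem_coe, mem_strs] at hx
      have h2 := (hfK _).mp (hK x)
      have h3 := hp (red i k n x)
      have h4 := poly_mono p (hr x)
      have h5 := he m
      rw [Polynomial.eval_add, Polynomial.eval_comp, Polynomial.eval_ofNat] at h5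
      rw [hx] at h4
      exact hF2 _ (by omega) h2.1 h2.2
    · simp only [List.cons.injEq, true_and] at hxy
      exact red_injective i k n (hf hxy)
  rw [card_strs] at h1
  omega

/-- the thin set has few elements of length at most `m ^ d`, for infinitely many `m` -/
theorem thin {β : List Bool → DT (List Bool)} {Ω : List Bool → Bool}
    (hden : ∀ d m₀ : ℕ, ∃ m ≥ m₀, ∃ F : Finset (List Bool), F.card < 2 ^ m ∧
      ∀ z, z.length + 2 ≤ (m + 2) ^ d → KK β Ω z → Ω (true :: z) = false → true :: z ∈ F)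
    (d m₀ : ℕ) : ∃ m ≥ m₀, {z : List Bool | z ∈ CC β Ω ∧ z.length ≤ m ^ d}.ncard < 2 ^ m := by
  obtain ⟨m, hm, F, hF1, hF2⟩ := hden (d + 1) (m₀ + 1)
  refine ⟨m, by omega, lt_of_le_of_lt ?_ hF1⟩
  rw [← Set.ncard_coe_finset F]
  refine Set.ncard_le_ncard_of_injOn (fun z => true :: z) (fun z hz => ?_)
    (fun x _ y _ hxy => ?_) F.finite_toSet
  · obtain ⟨⟨h1, h2⟩, h3⟩ := hz
    refine hF2 z ?_ h1 h2
    have a1 : m ^ d ≤ (m + 2) ^ d := Nat.pow_le_pow_left (by omega) d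
    have a2 : 0 < (m + 2) ^ d := Nat.pow_pos (by omega)
    have a3 : (m + 2) ^ d * 3 ≤ (m + 2) ^ d * (m + 2) := Nat.mul_le_mul_left _ (by omega)
    rw [pow_succ]
    omega
  · simpa using hxy

theorem main (t : ℕ → ℕ) (ht : Monotone t) (h : ∀ k, ∃ n₀, ∀ n ≥ n₀, t (n ^ k) ≤ 2 ^ n) :
    ∃ O : List Bool → Bool,
      (∀ A B : Set (List Bool), InNP O A → InNP O B → Disjoint A B →
        ∃ S, InP O S ∧ A ⊆ S ∧ Disjoint S B) ∧
      (∀ f : List Bool → List Bool, ¬ OneWay O f) ∧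
      (∃ L : Set (List Bool), InNP O L ∧ ¬ InP O L ∧ HardAE O t L) ∧
      (∃ K C : Set (List Bool), NPComplete O K ∧ NPComplete O C ∧
        (∀ d m₀ : ℕ, ∃ m ≥ m₀, {z : List Bool | z ∈ C ∧ z.length ≤ m ^ d}.ncard < 2 ^ m) ∧
        ∀ f : List Bool → List Bool, Function.Injective f →
          (∃ p : Polynomial ℕ, ∀ x, (f x).length ≤ p.eval x.length) →
            ¬ ∀ x, x ∈ K ↔ f x ∈ C) ∧
      ¬ BermanHartmanis O := by
  obtain ⟨β, Ω, hΩ, hsep, hw, hden⟩ := exists_world (t := fun n => max (t n) n)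
    (ht.max monotone_id) (sub_id h)
  have hard : HardAE (orc β Ω) (fun n => max (t n) n) (LL Ω) := hardAE_of_wrong hw
  have hnotP : ¬ InP (orc β Ω) (LL Ω) := hard.not_inP (fun n => le_max_right _ _)
  have hC : ∃ c₀, c₀ ∈ CC β Ω := by
    by_contra hcon
    push Not at hcon
    refine hnotP (InP.of_reduces ((npc_KK β Ω).2 _ (inNP_LL β Ω)) ?_)
    refine inP_of_FP (F := fun v => bit (orc β Ω (dec (node leaf (node tt v)))))
      (FP.query' (FP.node' FP.leaf' (FP.node' (FP.const' _) FP.id'))) (fun x => ?_)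
    have e : node leaf (node tt (enc x)) = enc (false :: true :: x) := rfl
    have e2 : orc β Ω (false :: true :: x) = Ω (true :: x) := rfl
    rw [e, dec_enc, e2, bit_ne_leaf]
    refine ⟨fun hx => hΩ x hx, fun hx => ?_⟩
    by_contra h1
    exact hcon x ⟨hx, by simpa using h1⟩
  obtain ⟨c₀, hc₀⟩ := hC
  have hmap : ∀ f : List Bool → List Bool, Function.Injective f →
      (∃ p : Polynomial ℕ, ∀ x, (f x).length ≤ p.eval x.length) →
        ¬ ∀ x, x ∈ {z | KK β Ω z} ↔ f x ∈ CC β Ω := by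
    rintro f hf ⟨p, hp⟩ hfK
    exact no_map hden hf hp hfK
  refine ⟨orc β Ω, fun A B hA hB hAB => inP_sep hsep hA hB hAB, no_oneWay hsep,
    ⟨LL Ω, inNP_LL β Ω, hnotP, hard.mono (fun n => le_max_left _ _)⟩,
    ⟨{z | KK β Ω z}, CC β Ω, npc_KK β Ω, npc_CC hΩ hc₀, thin hden, hmap⟩, fun hBH => ?_⟩
  obtain ⟨g, hg1, -, hg3⟩ := hBH _ _ (npc_KK β Ω) (npc_CC hΩ hc₀)
  exact hmap g g.injective (PolyTimeFun.length_le hg1) hg3

end Pool.Agent.H58.BH
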