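import Pool.Agent.H58.BH.State

set_option autoImplicit false

/-!
# Fooling a program at one length
-/

namespace Pool.Agent.H58.BH

open Pool.Agent.H88.RO Pool.Agent.H88.RO.Tr Pool.Agent.H65.TS Pool.Agent.H65.BP

/-- the hard set -/
def LL (ω : List Bool → Bool) : Set (List Bool) :=
  {x | ∃ y : List Bool, y.length = x.length ∧ ω (false :: (x ++ y)) = true}

/-- the program `c` with clock `T` is wrong at length `n`, for all worlds above the state -/
def Hd {β : List Bool → DT (List Bool)} (n : ℕ) (c : Tr) (T : ℕ) (s : St β (2 * n + 1)) : Prop :=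
  ∃ x : List Bool, x.length = n ∧ (∃ y : List Bool, y.length = n ∧ false :: (x ++ y) ∈ s.F) ∧
    (((∀ y : List Bool, y.length = n → s.ω (false :: (x ++ y)) = false) ∧
      ∀ ω', Ag (base (2 * n + 1) ∪ s.F) s.ω ω' →
        U (orc β ω') c (enc x) T = node leaf (bit true)) ∨
    ((∃ y : List Bool, y.length = n ∧ s.ω (false :: (x ++ y)) = true) ∧
      ∀ ω', Ag (base (2 * n + 1) ∪ s.F) s.ω ω' →
        U (orc β ω') c (enc x) T ≠ node leaf (bit true)))

theorem Hd.ext {β : List Bool → DT (List Bool)} {n : ℕ} {c : Tr} {T : ℕ}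
    {s t : St β (2 * n + 1)} (h : Hd n c T s) (hst : Ext s t)
    (hp : ∀ x : List Bool, x.length = n → (∃ y : List Bool, y.length = n ∧
      false :: (x ++ y) ∈ s.F) → ∀ y : List Bool, y.length = n →
      t.ω (false :: (x ++ y)) = s.ω (false :: (x ++ y))) : Hd n c T t := by
  obtain ⟨x, hx, ⟨y0, hy0, hy0F⟩, h⟩ := h
  refine ⟨x, hx, ⟨y0, hy0, hst.1 hy0F⟩, ?_⟩
  rcases h with ⟨h1, h2⟩ | ⟨⟨y, hy, hyt⟩, h2⟩
  · refine Or.inl ⟨fun y hy => ?_, fun ω' hω' => h2 ω' (hst.ag le_rfl hω')⟩
    rw [hp x hx ⟨y0, hy0, hy0F⟩ y hy]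
    exact h1 y hy
  · refine Or.inr ⟨⟨y, hy, ?_⟩, fun ω' hω' => h2 ω' (hst.ag le_rfl hω')⟩
    rw [hp x hx ⟨y0, hy0, hy0F⟩ y hy]
    exact hyt

theorem exists_untouched (F : Finset (List Bool)) (n : ℕ) (h : F.card < 2 ^ n) :
    ∃ x : List Bool, x.length = n ∧ ∀ y : List Bool, false :: (x ++ y) ∉ F := by
  classical
  by_contra hcon
  push Not at hcon
  have hsub : strs n ⊆ F.image (fun v => v.tail.take n) := by
    intro x hx
    rw [mem_strs] at hx
    obtain ⟨y, hy⟩ := hcon x hx
    rw [Finset.mem_image]
    exact ⟨_, hy, by simp [← hx]⟩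
  have h1 := Finset.card_le_card hsub
  rw [card_strs] at h1
  have h2 := Finset.card_image_le (s := F) (f := fun v : List Bool => v.tail.take n)
  omega

theorem exists_free (F : Finset (List Bool)) (x : List Bool) (n : ℕ) (h : F.card < 2 ^ n) :
    ∃ y : List Bool, y.length = n ∧ false :: (x ++ y) ∉ F := by
  classical
  by_contra hcon
  push Not at hcon
  have hsub : strs n ⊆ F.image (fun v => v.tail.drop x.length) := by
    intro y hy
    rw [mem_strs] at hy
    rw [Finset.mem_image]
    exact ⟨_, hcon y hy, by simp⟩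
  have h1 := Finset.card_le_card hsub
  rw [card_strs] at h1
  have h2 := Finset.card_image_le (s := F) (f := fun v : List Bool => v.tail.drop x.length)
  omega

/-- **Fooling a program.** -/
theorem St.hard {β : List Bool → DT (List Bool)} (hβ : ∀ v, Sm (β v) v.length) {n : ℕ}
    (s : St β (2 * n + 1)) (c : Tr) (T : ℕ) (hT : T ≤ 2 ^ (2 * n + 1))
    (hc : s.F.card + T * T < 2 ^ n) :
    ∃ t : St β (2 * n + 1), Ext s t ∧ t.F.card ≤ s.F.card + (T * T + 1) ∧ Hd n c T t ∧
      ∀ x : List Bool, x.length = n → (∃ y : List Bool, y.length = n ∧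
      false :: (x ++ y) ∈ s.F) → ∀ y : List Bool, y.length = n →
      t.ω (false :: (x ++ y)) = s.ω (false :: (x ++ y)) := by
  classical
  obtain ⟨x, hx, hxF⟩ := exists_untouched s.F n (by omega)
  obtain ⟨E, hE1, hE2, hE3, hE4⟩ := exists_cert_U hβ (s.legal.b T) c (enc x) T le_rfl
  have hlen : ∀ x' y : List Bool, x'.length = n → y.length = n →
      (false :: (x' ++ y)).length = 2 * n + 1 := by
    intro x' y h1 h2
    rw [List.length_cons, List.length_append, h1, h2]; ring
  have hzero : ∀ x' y : List Bool, x'.length = n → y.length = n → false :: (x' ++ y) ∉ s.F →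
      s.ω (false :: (x' ++ y)) = false := by
    intro x' y h1 h2 h3
    exact s.zero _ h3 (hlen x' y h1 h2).ge (fun z hz => by simp at hz)
  have h2n : 2 * n + 1 < 2 ^ (2 * n + 1) := Nat.lt_two_pow_self
  by_cases hacc : U (orc β s.ω) c (enc x) T = node leaf (bit true)
  · -- the program accepts `x`: keep `x` out of `L`
    have hy0 : (List.replicate n false).length = n := by simp
    set v0 : List Bool := false :: (x ++ List.replicate n false) with hv0
    have hcl : Cl β (base (2 * n + 1) ∪ (s.F ∪ insert v0 E)) s.ω := by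
      intro z hz hzt ω' hω'
      by_cases hzs : true :: z ∈ base (2 * n + 1) ∪ s.F
      · refine s.closed z hzs hzt ω' (hω'.mono ?_)
        exact Finset.union_subset_union (Finset.Subset.refl _) Finset.subset_union_left
      · have hz' : true :: z ∈ E := by
          simp only [Finset.mem_union, Finset.mem_insert] at hz hzs
          rcases hz with hz | hz | hz | hz
          · exact absurd (Or.inl hz) hzs
          · exact absurd (Or.inr hz) hzs
          · simp [hv0] at hz
          · exact hz
        refine hE3 z hz' hzt ω' (hω'.mono ?_)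
        exact (Finset.subset_insert _ _).trans
          (Finset.subset_union_right.trans Finset.subset_union_right)
    obtain ⟨t, ht1, ht2, ht3⟩ := s.extend hβ (insert v0 E) s.ω (Ag.refl _ _) hcl (fun v hv => by
      rw [Finset.mem_insert] at hv
      rcases hv with rfl | hv
      · rw [hv0, hlen x _ hx hy0]; exact h2n
      · exact lt_of_lt_of_le (hE2 v hv) hT)
    have hsame : ∀ x' y : List Bool, x'.length = n → y.length = n →
        t.ω (false :: (x' ++ y)) = s.ω (false :: (x' ++ y)) := by
      intro x' y h1 h2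
      by_cases hF : false :: (x' ++ y) ∈ t.F
      · refine ht3 _ ?_
        rw [ht1] at hF
        exact Finset.mem_union_right _ hF
      · rw [t.zero _ hF (hlen x' y h1 h2).ge (fun z hz => by simp at hz),
          hzero x' y h1 h2 (fun h => hF (ht2.1 h))]
    refine ⟨t, ht2, ?_, ⟨x, hx, ⟨_, hy0, ?_⟩, Or.inl ⟨fun y hy => ?_, fun ω' hω' => ?_⟩⟩, ?_⟩
    · rw [ht1]
      have a1 := Finset.card_union_le s.F (insert v0 E)
      have a2 := Finset.card_insert_le v0 E
      omega
    · rw [ht1]
      exact Finset.mem_union_right _ (Finset.mem_insert_self _ _)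
    · rw [hsame x y hx hy]
      exact hzero x y hx hy (hxF y)
    · rw [← hacc]
      refine hE4 ω' ((ht3.trans ?_).mono ?_)
      · rw [← ht1]; exact hω'
      · exact (Finset.subset_insert _ _).trans
          (Finset.subset_union_right.trans Finset.subset_union_right)
    · intro x' hx' _ y hy
      exact hsame x' y hx' hy
  · -- the program does not accept `x`: put `x` into `L`
    obtain ⟨y, hy, hyE⟩ := exists_free E x n (by omega)
    set v1 : List Bool := false :: (x ++ y) with hv1
    let ω₀ : List Bool → Bool := Function.update s.ω v1 true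
    have hv1F : v1 ∉ s.F := hxF y
    have hv1b : v1 ∉ base (2 * n + 1) := by
      rw [mem_base, hv1, hlen x y hx hy]
      omega
    have hne : ∀ v, v ≠ v1 → ω₀ v = s.ω v := fun v hv => Function.update_of_ne hv _ _
    have hag : Ag (base (2 * n + 1) ∪ s.F) s.ω ω₀ := by
      intro v hv
      refine hne v (fun h => ?_)
      subst h
      rw [Finset.mem_union] at hv
      rcases hv with hv | hv
      · exact hv1b hv
      · exact hv1F hv
    have hagE : Ag E s.ω ω₀ := by
      intro v hv
      refine hne v (fun h => ?_)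
      subst h
      exact hyE hv
    have hcl : Cl β (base (2 * n + 1) ∪ (s.F ∪ insert v1 E)) ω₀ := by
      intro z hz hzt ω' hω'
      rw [hne _ (by simp [hv1])] at hzt
      by_cases hzs : true :: z ∈ base (2 * n + 1) ∪ s.F
      · refine s.closed z hzs hzt ω' (hag.trans (hω'.mono ?_))
        exact Finset.union_subset_union (Finset.Subset.refl _) Finset.subset_union_left
      · have hz' : true :: z ∈ E := by
          simp only [Finset.mem_union, Finset.mem_insert] at hz hzs
          rcases hz with hz | hz | hz | hz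
          · exact absurd (Or.inl hz) hzs
          · exact absurd (Or.inr hz) hzs
          · simp [hv1] at hz
          · exact hz
        refine hE3 z hz' hzt ω' (hagE.trans (hω'.mono ?_))
        exact (Finset.subset_insert _ _).trans
          (Finset.subset_union_right.trans Finset.subset_union_right)
    obtain ⟨t, ht1, ht2, ht3⟩ := s.extend hβ (insert v1 E) ω₀ hag hcl (fun v hv => by
      rw [Finset.mem_insert] at hv
      rcases hv with rfl | hv
      · rw [hv1, hlen x _ hx hy]; exact h2n
      · exact lt_of_lt_of_le (hE2 v hv) hT)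
    have hv1t : v1 ∈ t.F := by
      rw [ht1]
      exact Finset.mem_union_right _ (Finset.mem_insert_self _ _)
    refine ⟨t, ht2, ?_, ⟨x, hx, ⟨y, hy, hv1t⟩, Or.inr ⟨⟨y, hy, ?_⟩, fun ω' hω' => ?_⟩⟩, ?_⟩
    · rw [ht1]
      have a1 := Finset.card_union_le s.F (insert v1 E)
      have a2 := Finset.card_insert_le v1 E
      omega
    · rw [ht3 v1 (by rw [← ht1]; exact Finset.mem_union_right _ hv1t)]
      exact Function.update_self _ _ _
    · rw [hE4 ω' (hagE.trans ((ht3.trans (by rw [← ht1]; exact hω')).mono ?_))]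
      · exact hacc
      · exact (Finset.subset_insert _ _).trans
          (Finset.subset_union_right.trans Finset.subset_union_right)
    · intro x' hx' ⟨y0, hy0, hy0F⟩ y' hy'
      have hxx : x' ≠ x := by
        rintro rfl
        exact hxF y0 hy0F
      have hvv : false :: (x' ++ y') ≠ v1 := by
        rw [hv1]
        intro h
        injection h with _ h
        exact hxx (List.append_inj_left h (hx'.trans hx.symm))
      by_cases hF : false :: (x' ++ y') ∈ t.F
      · rw [ht3 _ (by rw [← ht1]; exact Finset.mem_union_right _ hF)]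
        exact hne _ hvv
      · rw [t.zero _ hF (hlen x' y' hx' hy').ge (fun z hz => by simp at hz),
          hzero x' y' hx' hy' (fun h => hF (ht2.1 h))]

/-- fooling all programs of a list -/
theorem St.hards {β : List Bool → DT (List Bool)} (hβ : ∀ v, Sm (β v) v.length) {n : ℕ}
    (C : List (Tr × ℕ)) : ∀ (s : St β (2 * n + 1)), (∀ p ∈ C, p.2 ≤ 2 ^ (2 * n + 1)) →
    s.F.card + (C.map (fun p => p.2 * p.2 + 1)).sum < 2 ^ n →
    ∃ t : St β (2 * n + 1), Ext s t ∧
      t.F.card ≤ s.F.card + (C.map (fun p => p.2 * p.2 + 1)).sum ∧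
      (∀ p ∈ C, Hd n p.1 p.2 t) ∧
      ∀ x : List Bool, x.length = n → (∃ y : List Bool, y.length = n ∧
      false :: (x ++ y) ∈ s.F) → ∀ y : List Bool, y.length = n →
      t.ω (false :: (x ++ y)) = s.ω (false :: (x ++ y)) := by
  induction C with
  | nil =>
    intro s _ _
    exact ⟨s, Ext.refl s, by simp, by simp, fun _ _ _ _ _ => rfl⟩
  | cons p C ih =>
    intro s hC hc
    rw [List.map_cons, List.sum_cons] at hc ⊢
    obtain ⟨t, ht1, ht2, ht3, ht4⟩ := s.hard hβ p.1 p.2 (hC p (by simp)) (by omega)
    obtain ⟨u, hu1, hu2, hu3, hu4⟩ := ih t (fun q hq => hC q (List.mem_cons_of_mem _ hq))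
      (by omega)
    refine ⟨u, ht1.trans le_rfl hu1, by omega, ?_, ?_⟩
    · intro q hq
      rcases List.mem_cons.mp hq with rfl | hq
      · exact ht3.ext hu1 hu4
      · exact hu3 q hq
    · intro x hx ⟨y0, hy0, hy0F⟩ y hy
      rw [hu4 x hx ⟨y0, hy0, ht1.1 hy0F⟩ y hy]
      exact ht4 x hx ⟨y0, hy0, hy0F⟩ y hy

end Pool.Agent.H58.BH
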