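import Pool.Agent.H58.BH.Prog

set_option autoImplicit false

/-!
# Separating disjoint NP sets and inverting functions
-/

namespace Pool.Agent.H58.BH

open Pool.Agent.H88.RO Pool.Agent.H88.RO.Tr Pool.Agent.H65.TS Pool.Agent.H65.BP

/-- the trees tell which of two problems has a solution -/
def Tells (β : List Bool → DT (List Bool)) (Ω : List Bool → Bool) : Prop :=
  ∀ φ : Fam, (∀ P ∈ fm φ, ¬ (P.N (orc β Ω) false ∧ P.N (orc β Ω) true)) →
    Ev (fun N => ∀ P ∈ fm φ, ∀ v, prb v = P → P.k ≤ 2 ^ (N / 32) → 2 ^ (N + 2) ≤ Rf v →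
      rr P.k (Rf v) * rr P.k (Rf v) ≤ v.length → Rf v ≤ v.length →
      ∀ b, P.N (orc β Ω) b → orc β Ω (true :: v) = b)

theorem exists_stage (N₀ K : ℕ) : ∃ N ≥ N₀, K ≤ 2 ^ (N / 32) ∧
    2 ^ (N + 2) ≤ 2 ^ (N₀ + 34) * (K + 1) ^ 32 := by
  refine ⟨32 * (Nat.log 2 (K + 1) + 1) + N₀, by omega, ?_, ?_⟩
  · have h1 := Nat.lt_pow_succ_log_self (b := 2) (by norm_num) (K + 1)
    have h2 : 2 ^ (Nat.log 2 (K + 1)).succ ≤ 2 ^ ((32 * (Nat.log 2 (K + 1) + 1) + N₀) / 32) :=
      Nat.pow_le_pow_right (by norm_num) (by omega)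
    omega
  · have h1 : 2 ^ Nat.log 2 (K + 1) ≤ K + 1 := Nat.pow_log_le_self 2 (by omega)
    have h2 := Nat.pow_le_pow_left h1 32
    calc 2 ^ (32 * (Nat.log 2 (K + 1) + 1) + N₀ + 2)
        = 2 ^ (N₀ + 34) * (2 ^ Nat.log 2 (K + 1)) ^ 32 := by
          rw [← pow_mul, ← pow_add]
          congr 1
          ring
      _ ≤ _ := Nat.mul_le_mul_left _ h2

/-- the number of the names allowed -/
noncomputable def Rp (N₀ : ℕ) (k : Polynomial ℕ) : Polynomial ℕ :=
  Polynomial.C (2 ^ (N₀ + 34)) * (k + 1) ^ 32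

/-- the padding -/
noncomputable def Pp (N₀ : ℕ) (k : Polynomial ℕ) : Polynomial ℕ :=
  ((Rp N₀ k + k * k) * (k * k) + k) * ((Rp N₀ k + k * k) * (k * k) + k) + Rp N₀ k

theorem eval_Rp (N₀ : ℕ) (k : Polynomial ℕ) (m : ℕ) :
    (Rp N₀ k).eval m = 2 ^ (N₀ + 34) * (k.eval m + 1) ^ 32 := by
  simp only [Rp, Polynomial.eval_mul, Polynomial.eval_C, Polynomial.eval_pow,
    Polynomial.eval_add, Polynomial.eval_one]

theorem eval_Pp (N₀ : ℕ) (k : Polynomial ℕ) (m : ℕ) : (Pp N₀ k).eval m =
    rr (k.eval m) ((Rp N₀ k).eval m) * rr (k.eval m) ((Rp N₀ k).eval m) + (Rp N₀ k).eval m := by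
  simp only [Pp, rr, Polynomial.eval_mul, Polynomial.eval_add]

/-- the use of the trees -/
theorem Tells.use {β : List Bool → DT (List Bool)} {Ω : List Bool → Bool} (h : Tells β Ω)
    (φ : Fam) (hφ : ∀ P ∈ fm φ, ¬ (P.N (orc β Ω) false ∧ P.N (orc β Ω) true)) :
    ∃ N₀, ∀ P ∈ fm φ, ∀ (k : Polynomial ℕ) (m : ℕ), P.k = k.eval m → ∀ v, prb v = P →
      Rf v = (Rp N₀ k).eval m → (Pp N₀ k).eval m ≤ v.length →
      ∀ b, P.N (orc β Ω) b → orc β Ω (true :: v) = b := by
  obtain ⟨N₀, hN₀⟩ := h φ hφ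
  refine ⟨N₀, fun P hP k m hk v hv hR hl b hb => ?_⟩
  obtain ⟨N, hN, h1, h2⟩ := exists_stage N₀ P.k
  rw [eval_Pp] at hl
  refine hN₀ N hN P hP v hv h1 ?_ ?_ ?_ b hb
  · rw [hR, eval_Rp, ← hk]
    exact h2
  · rw [hR, hk]
    omega
  · rw [hR]
    omega

/-! ### disjoint sets in NP -/

theorem q1T_eq (K N₀ N₁ i₀ i₁ R p : ℕ) (x : List Bool) :
    node leaf (insT (num K) (num N₀) (num i₀) (insT (num R) (num N₁) (num i₁)
      (onesPre (num p) (node leaf (enc x))))) = enc (q1 K N₀ N₁ i₀ i₁ R p x) := by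
  have e : node leaf (enc x) = enc (false :: x) := rfl
  rw [e, onesPre_enc, insT_eq, insT_eq]
  simp only [len_num]
  rfl

theorem inP_sep {β : List Bool → DT (List Bool)} {Ω : List Bool → Bool} (h : Tells β Ω)
    {A B : Set (List Bool)} (hA : InNP (orc β Ω) A) (hB : InNP (orc β Ω) B)
    (hAB : Disjoint A B) : ∃ S, InP (orc β Ω) S ∧ A ⊆ S ∧ Disjoint S B := by
  obtain ⟨i₁, k₁, n₁, h₁⟩ := exists_index_np hA
  obtain ⟨i₀, k₀, n₀, h₀⟩ := exists_index_np hB
  have hN1 : ∀ x : List Bool, (P1 ((k₀ + k₁).eval x.length) (n₀.eval x.length) (n₁.eval x.length)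
      i₀ i₁ x).N (orc β Ω) true ↔ x ∈ A := by
    intro x
    rw [← h₁ x ((k₀ + k₁).eval x.length) (by rw [Polynomial.eval_add]; omega)]
    exact Iff.rfl
  have hN0 : ∀ x : List Bool, (P1 ((k₀ + k₁).eval x.length) (n₀.eval x.length) (n₁.eval x.length)
      i₀ i₁ x).N (orc β Ω) false ↔ x ∈ B := by
    intro x
    rw [← h₀ x ((k₀ + k₁).eval x.length) (by rw [Polynomial.eval_add]; omega)]
    exact Iff.rfl
  obtain ⟨N₀, hN₀⟩ := h.use (false, i₀, i₁, k₀ + k₁, n₀, n₁) (by
    rintro P ⟨x, rfl⟩ ⟨a0, a1⟩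
    exact Set.disjoint_left.mp hAB ((hN1 x).mp a1) ((hN0 x).mp a0))
  obtain ⟨Tk, hk1, hk2⟩ := exists_polyT (k₀ + k₁)
  obtain ⟨T0, h01, h02⟩ := exists_polyT n₀
  obtain ⟨T1, h11, h12⟩ := exists_polyT n₁
  obtain ⟨TR, hR1, hR2⟩ := exists_polyT (Rp N₀ (k₀ + k₁))
  obtain ⟨TP, hP1, hP2⟩ := exists_polyT (Pp N₀ (k₀ + k₁))
  let v : List Bool → List Bool := fun x => q1 ((k₀ + k₁).eval x.length) (n₀.eval x.length)
    (n₁.eval x.length) i₀ i₁ ((Rp N₀ (k₀ + k₁)).eval x.length)
    ((Pp N₀ (k₀ + k₁)).eval x.length) x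
  have hv : ∀ x b, (P1 ((k₀ + k₁).eval x.length) (n₀.eval x.length) (n₁.eval x.length)
      i₀ i₁ x).N (orc β Ω) b → orc β Ω (true :: v x) = b := by
    intro x b hb
    exact hN₀ _ ⟨x, rfl⟩ (k₀ + k₁) x.length rfl (v x) (prb_q1 _ _ _ _ _ _ _ _)
      (Rf_q1 _ _ _ _ _ _ _ _) (le_length_q1 _ _ _ _ _ _ _ _) b hb
  refine ⟨{x | orc β Ω (true :: v x) = true}, ?_, ?_, ?_⟩
  · refine inP_of_FP (F := fun x => bit (orc β Ω (dec (node tt (node leaf (insT (Tk x) (T0 x)
      (num i₀) (insT (TR x) (T1 x) (num i₁) (onesPre (TP x) (node leaf x)))))))))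
      (FP.query' (FP.node' (FP.const' _) (FP.node' FP.leaf' (FP.insT' (hk2 _ _ FP.id')
        (h02 _ _ FP.id') (FP.const' _) (FP.insT' (hR2 _ _ FP.id') (h12 _ _ FP.id')
          (FP.const' _) (FP.onesPre' (hP2 _ _ FP.id') (FP.node' FP.leaf' FP.id')))))))
      (fun x => ?_)
    rw [hk1, h01, h11, hR1, hP1, len_enc, q1T_eq]
    have e : node tt (enc (v x)) = enc (true :: v x) := rfl
    show bit (orc β Ω (dec (node tt (enc (v x))))) ≠ leaf ↔ _
    rw [e, dec_enc, bit_ne_leaf]
    exact Iff.rfl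
  · intro x hx
    exact hv x true ((hN1 x).mpr hx)
  · rw [Set.disjoint_left]
    intro x hx hxB
    have h1 := hv x false ((hN0 x).mpr hxB)
    have h2 : orc β Ω (true :: v x) = true := hx
    rw [h1] at h2
    exact Bool.noConfusion h2

/-! ### one-way functions -/

theorem q2T_eq (K N i R p : ℕ) (z Y : List Bool) :
    node tt (insT (num K) (num N) (num i) (insT (num R) leaf leaf
      (onesPre (num p) (node leaf (onesPre (enc z) (node leaf (appT (enc z) (enc Y)))))))) =
      enc (q2 K N i R p z Y) := by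
  have e : ∀ x : List Bool, node leaf (enc x) = enc (false :: x) := fun _ => rfl
  rw [appT_enc, e, onesPre_enc, e, onesPre_enc, insT_eq, insT_eq]
  simp only [len_num, len_enc]
  rfl

theorem bits_iter (w : List Bool) (g : List Bool → Bool)
    (hg : ∀ z b, (b :: z) <:+ w → g z = b) (j : ℕ) (hj : j ≤ w.length) :
    (fun z => g z :: z)^[j] [] = w.drop (w.length - j) := by
  induction j with
  | zero => simp
  | succ j ih =>
    rw [Function.iterate_succ_apply', ih (by omega)]
    have h1 : w.drop (w.length - (j + 1)) =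
        w[w.length - (j + 1)] :: w.drop (w.length - j) := by
      rw [List.drop_eq_getElem_cons (by omega)]
      congr 2
      omega
    rw [h1, hg _ w[w.length - (j + 1)] (by rw [← h1]; exact List.drop_suffix _ _)]

theorem prs_drop (N : ℕ) (x : List Bool) (h : x.length ≤ N) :
    (prs ((List.replicate N true ++ false :: x).drop x.length)).2 = x := by
  rw [List.drop_append_of_le_length (by simpa using h), List.drop_replicate, prs_ones]

theorem no_oneWay {β : List Bool → DT (List Bool)} {Ω : List Bool → Bool} (h : Tells β Ω)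
    (f : List Bool → List Bool) : ¬ OneWay (orc β Ω) f := by
  rintro ⟨hinj, ⟨c, q, hc⟩, ⟨p, hp⟩, hno⟩
  apply hno
  set i := sval (rpn (code c)) with hi
  set k : Polynomial ℕ := Polynomial.C (size (code c) + 10) * q.comp p + 10 with hk
  have hN : ∀ (z Y : List Bool) (b : Bool), (P2 (k.eval Y.length) (p.eval Y.length) i z Y).N
      (orc β Ω) b ↔ ∃ y : List Bool, y.length ≤ p.eval Y.length ∧
        (b :: z) <:+ (List.replicate (p.eval Y.length) true ++ false :: y) ∧ f y = Y := by
    intro z Y b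
    show (∃ y : List Bool, y.length ≤ p.eval Y.length ∧
        (b :: z) <:+ (List.replicate (p.eval Y.length) true ++ false :: y) ∧
        U (orc β Ω) (mach i) (enc y) (k.eval Y.length) = node leaf (enc Y)) ↔ _
    refine exists_congr fun y => and_congr_right fun hy => and_congr_right fun _ => ?_
    obtain ⟨t, ht, he⟩ := hc y
    have h1 : q.eval y.length ≤ q.eval (p.eval Y.length) := poly_mono q hy
    rw [hi, mach_sval, U_eq he]
    · constructor
      · intro h2
        injection h2 with _ h2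
        exact enc_injective h2
      · intro h2
        rw [h2]
    · rw [hk]
      simp only [Polynomial.eval_add, Polynomial.eval_mul, Polynomial.eval_C,
        Polynomial.eval_comp, Polynomial.eval_ofNat]
      have h2 := Nat.mul_le_mul_left (size (code c) + 10) (ht.trans h1)
      omega
  obtain ⟨N₀, hN₀⟩ := h.use (true, i, 0, k, p, 0) (by
    rintro P ⟨z, Y, rfl⟩ ⟨a0, a1⟩
    obtain ⟨y, -, hy1, hy2⟩ := (hN z Y false).mp a0
    obtain ⟨y', -, hy1', hy2'⟩ := (hN z Y true).mp a1
    have h1 : y = y' := hinj (hy2.trans hy2'.symm)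
    subst h1
    have h2 := List.suffix_of_suffix_length_le hy1 hy1' (by simp)
    have h3 := h2.eq_of_length (by simp)
    simp at h3)
  obtain ⟨Tk, hk1, hk2⟩ := exists_polyT k
  obtain ⟨Tn, hn1, hn2⟩ := exists_polyT p
  obtain ⟨TR, hR1, hR2⟩ := exists_polyT (Rp N₀ k)
  obtain ⟨TP, hP1, hP2⟩ := exists_polyT (Pp N₀ k)
  let v : List Bool → List Bool → List Bool := fun Y z => q2 (k.eval Y.length) (p.eval Y.length) i
    ((Rp N₀ k).eval Y.length) ((Pp N₀ k).eval Y.length) z Y
  have hv : ∀ (Y z : List Bool) (b : Bool), (P2 (k.eval Y.length) (p.eval Y.length) i z Y).N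
      (orc β Ω) b → orc β Ω (true :: v Y z) = b := by
    intro Y z b hb
    exact hN₀ _ ⟨z, Y, rfl⟩ k Y.length rfl (v Y z) (prb_q2 _ _ _ _ _ _ _)
      (Rf_q2 _ _ _ _ _ _ _) (le_length_q2 _ _ _ _ _ _ _) b hb
  refine ⟨fun Y => (prs ((fun z => orc β Ω (true :: v Y z) :: z)^[p.eval Y.length + 1] [])).2,
    ?_, fun x => ?_⟩
  · -- the program
    have hF : FP (orc β Ω) (fun s => node (fst s) (node (bit (orc β Ω (dec (node tt (node tt
        (insT (Tk (fst s)) (Tn (fst s)) (num i) (insT (TR (fst s)) leaf leaf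
          (onesPre (TP (fst s)) (node leaf (onesPre (snd s) (node leaf
            (appT (snd s) (fst s)))))))))))) ) (snd s))) :=
      FP.node' (FP.fst' FP.id') (FP.node' (FP.query' (FP.node' (FP.const' _)
        (FP.node' (FP.const' _) (FP.insT' (hk2 _ _ (FP.fst' FP.id')) (hn2 _ _ (FP.fst' FP.id'))
          (FP.const' _) (FP.insT' (hR2 _ _ (FP.fst' FP.id')) FP.leaf' FP.leaf'
            (FP.onesPre' (hP2 _ _ (FP.fst' FP.id')) (FP.node' FP.leaf'
              (FP.onesPre' (FP.snd' FP.id') (FP.node' FP.leaf'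
                (FP.appT' (FP.snd' FP.id') (FP.fst' FP.id')))))))))))
        (FP.snd' FP.id'))
    have hit := FP.iterate_add hF (N := fun Y => node leaf (Tn Y)) (X := fun Y => node Y leaf)
      (FP.node' FP.leaf' (hn2 _ _ FP.id')) (FP.node' FP.id' FP.leaf') 10 (fun s => by
        have b1 : size (fst s) + size (snd s) ≤ size s + 1 := by
          cases s with
          | leaf => simp [size]
          | node a b => simp only [fst_node, snd_node, size]; omega
        simp only [size]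
        have := size_bit_le (orc β Ω (dec (node tt (node tt
          (insT (Tk (fst s)) (Tn (fst s)) (num i) (insT (TR (fst s)) leaf leaf
            (onesPre (TP (fst s)) (node leaf (onesPre (snd s) (node leaf
              (appT (snd s) (fst s))))))))))))
        omega)
    refine polyTimeFun_of_FP (FP.fst' (FP.snd' (FP.parseT' (FP.snd' hit)))) (fun Y => ?_)
    have hs : ∀ (j : ℕ) (z : List Bool), (fun s => node (fst s) (node (bit (orc β Ω (dec
        (node tt (node tt (insT (Tk (fst s)) (Tn (fst s)) (num i) (insT (TR (fst s)) leaf leaf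
          (onesPre (TP (fst s)) (node leaf (onesPre (snd s) (node leaf
            (appT (snd s) (fst s)))))))))))) ) (snd s)))^[j] (node (enc Y) (enc z)) =
        node (enc Y) (enc ((fun z => orc β Ω (true :: v Y z) :: z)^[j] z)) := by
      intro j
      induction j with
      | zero => intro z; rfl
      | succ j ih =>
        intro z
        rw [Function.iterate_succ_apply, Function.iterate_succ_apply, ← ih]
        congr 1
        simp only [fst_node, snd_node]
        rw [hk1, hn1, hR1, hP1, len_enc, q2T_eq]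
        have e : node tt (enc (v Y z)) = enc (true :: v Y z) := rfl
        show node (enc Y) (node (bit (orc β Ω (dec (node tt (enc (v Y z)))))) (enc z)) = _
        rw [e, dec_enc]
        rfl
    have hl : len (node leaf (Tn (enc Y))) = p.eval Y.length + 1 := by
      rw [hn1, len_enc]
      show len (num _) + 1 = _
      rw [len_num]
    rw [hl]
    have e0 : node (enc Y) leaf = node (enc Y) (enc []) := rfl
    rw [e0, hs, snd_node, snd_parseT]
  · show (prs ((fun z => orc β Ω (true :: v (f x) z) :: z)^[p.eval (f x).length + 1] [])).2 = x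
    have hx := hp x
    rw [bits_iter (List.replicate (p.eval (f x).length) true ++ false :: x)
      (fun z => orc β Ω (true :: v (f x) z)) (fun z b hz => hv (f x) z b
        ((hN z (f x) b).mpr ⟨x, hx, hz, rfl⟩)) _ (by simp)]
    have e1 : (List.replicate (p.eval (f x).length) true ++ false :: x).length -
        (p.eval (f x).length + 1) = x.length := by simp; omega
    rw [e1, prs_drop _ _ hx]

end Pool.Agent.H58.BH
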