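import Mathlib

set_option autoImplicit false

/-!
# Numerical estimates
-/

namespace Pool.Agent.H58.BH

/-- a statement holds for all sufficiently large numbers -/
def Ev (P : ℕ → Prop) : Prop := ∃ n₀, ∀ n ≥ n₀, P n

theorem Ev.and {P Q : ℕ → Prop} (hP : Ev P) (hQ : Ev Q) : Ev (fun n => P n ∧ Q n) := by
  obtain ⟨a, ha⟩ := hP
  obtain ⟨b, hb⟩ := hQ
  exact ⟨max a b, fun n hn => ⟨ha n (le_trans (le_max_left _ _) hn),
    hb n (le_trans (le_max_right _ _) hn)⟩⟩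

theorem Ev.mono {P Q : ℕ → Prop} (hP : Ev P) (h : ∀ n, P n → Q n) : Ev Q := by
  obtain ⟨a, ha⟩ := hP
  exact ⟨a, fun n hn => h n (ha n hn)⟩

theorem Ev.ge (m : ℕ) : Ev (fun n => m ≤ n) := ⟨m, fun _ h => h⟩

/-- polynomials are small -/
theorem ev_poly (c : ℕ) : Ev (fun n => (n + 2) ^ c ≤ 2 ^ (n / 64)) := by
  have h1 := tendsto_pow_const_div_const_pow_of_one_lt c (by norm_num : (1 : ℝ) < 2)
  have h2 : ∀ᶠ m : ℕ in Filter.atTop, (m : ℝ) ^ c / 2 ^ m < 1 / 128 ^ c :=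
    h1.eventually (gt_mem_nhds (by positivity))
  rw [Filter.eventually_atTop] at h2
  obtain ⟨m₀, hm⟩ := h2
  refine ⟨64 * (m₀ + 2), fun n hn => ?_⟩
  have h3 : m₀ + 2 ≤ n / 64 := by omega
  set m := n / 64 with hmdef
  have h4 := hm m (by omega)
  have h5 : ((128 * m : ℕ) : ℝ) ^ c < (2 : ℝ) ^ m := by
    rw [div_lt_div_iff₀ (by positivity) (by positivity)] at h4
    push_cast
    rw [mul_pow]
    linarith
  have h6 : (128 * m) ^ c < 2 ^ m := by exact_mod_cast h5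
  calc (n + 2) ^ c ≤ (128 * m) ^ c := Nat.pow_le_pow_left (by omega) _
    _ ≤ 2 ^ m := h6.le

/-- the budget -/
def hh (t : ℕ → ℕ) (n : ℕ) : ℕ := (t n + 2) ^ Nat.log 2 n

theorem hh_mono {t : ℕ → ℕ} (ht : Monotone t) : Monotone (hh t) := by
  intro a b hab
  unfold hh
  calc (t a + 2) ^ Nat.log 2 a ≤ (t b + 2) ^ Nat.log 2 a :=
        Nat.pow_le_pow_left (by have := ht hab; omega) _
    _ ≤ (t b + 2) ^ Nat.log 2 b := Nat.pow_le_pow_right (by omega) (Nat.log_mono_right hab)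

theorem ev_hh {t : ℕ → ℕ} (ht : Monotone t) (h : ∀ k, ∃ n₀, ∀ n ≥ n₀, t (n ^ k) ≤ 2 ^ n) (d : ℕ) :
    Ev (fun m => hh t ((m + 2) ^ d) ≤ 2 ^ (m / 64)) := by
  obtain ⟨n₀, hn₀⟩ := h (4 * d)
  refine ⟨(1024 * d + n₀ + 2) ^ 4, fun m hm => ?_⟩
  set s := Nat.sqrt m with hs
  set u := Nat.sqrt s with hu
  have hs1 : s * s ≤ m := Nat.sqrt_le m
  have hs2 : m < (s + 1) * (s + 1) := Nat.lt_succ_sqrt m
  have hu1 : u * u ≤ s := Nat.sqrt_le s
  have hu2 : s < (u + 1) * (u + 1) := Nat.lt_succ_sqrt s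
  have hub : 1024 * d + n₀ + 2 ≤ u := by
    rw [hu, Nat.le_sqrt, hs, Nat.le_sqrt]
    calc (1024 * d + n₀ + 2) * (1024 * d + n₀ + 2) * ((1024 * d + n₀ + 2) * (1024 * d + n₀ + 2))
        = (1024 * d + n₀ + 2) ^ 4 := by ring
      _ ≤ m := hm
  have hus : u ≤ s := le_trans (Nat.le_mul_self u) hu1
  have h1 : m + 2 ≤ s ^ 4 := by
    have e : s ^ 4 = (s * s) * (s * s) := by ring
    have e1 : 2 * s ≤ s * s := Nat.mul_le_mul_right _ (by omega)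
    have e2 : 4 ≤ s * s := Nat.mul_le_mul (show 2 ≤ s by omega) (show 2 ≤ s by omega)
    have e3 : 4 * (s * s) ≤ (s * s) * (s * s) := Nat.mul_le_mul_right _ e2
    have e4 : (s + 1) * (s + 1) = s * s + 2 * s + 1 := by ring
    rw [e]
    omega
  have h2 : (m + 2) ^ d ≤ s ^ (4 * d) := by
    rw [pow_mul]
    exact Nat.pow_le_pow_left h1 d
  have h3 : t ((m + 2) ^ d) ≤ 2 ^ s := (ht h2).trans (hn₀ s (by omega))
  have h4 : Nat.log 2 ((m + 2) ^ d) ≤ 8 * u * d := by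
    have h5 : (m + 2) ^ d ≤ 2 ^ (8 * u * d) := by
      rw [pow_mul]
      refine Nat.pow_le_pow_left ?_ d
      have h6 : u + 1 ≤ 2 ^ u := Nat.lt_two_pow_self
      calc m + 2 ≤ s ^ 4 := h1
        _ ≤ ((u + 1) * (u + 1)) ^ 4 := Nat.pow_le_pow_left hu2.le 4
        _ ≤ (2 ^ u * 2 ^ u) ^ 4 := Nat.pow_le_pow_left (Nat.mul_le_mul h6 h6) 4
        _ = 2 ^ (8 * u) := by rw [← pow_add, ← pow_mul]; congr 1; ring
    calc Nat.log 2 ((m + 2) ^ d) ≤ Nat.log 2 (2 ^ (8 * u * d)) := Nat.log_mono_right h5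
      _ = 8 * u * d := Nat.log_pow (by norm_num) _
  unfold hh
  calc (t ((m + 2) ^ d) + 2) ^ Nat.log 2 ((m + 2) ^ d)
      ≤ (t ((m + 2) ^ d) + 2) ^ (8 * u * d) := Nat.pow_le_pow_right (by omega) h4
    _ ≤ (2 ^ (s + 1)) ^ (8 * u * d) := by
        refine Nat.pow_le_pow_left ?_ _
        have : 2 ^ 1 ≤ 2 ^ s := Nat.pow_le_pow_right (by norm_num) (by omega)
        rw [pow_succ]
        omega
    _ = 2 ^ ((s + 1) * (8 * u * d)) := by rw [← pow_mul]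
    _ ≤ 2 ^ (m / 64) := by
        refine Nat.pow_le_pow_right (by norm_num) ?_
        rw [Nat.le_div_iff_mul_le (by norm_num)]
        have h7 : 1024 * u * d ≤ u * u := by nlinarith
        calc (s + 1) * (8 * u * d) * 64 ≤ (2 * s) * (8 * u * d) * 64 := by
              refine Nat.mul_le_mul_right _ (Nat.mul_le_mul_right _ (by omega))
          _ = s * (1024 * u * d) := by ring
          _ ≤ s * s := Nat.mul_le_mul_left _ (h7.trans hu1)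
          _ ≤ m := hs1

theorem ev1 {t : ℕ → ℕ} (ht : Monotone t) (h : ∀ k, ∃ n₀, ∀ n ≥ n₀, t (n ^ k) ≤ 2 ^ n) :
    Ev (fun N => N * (2 * (2 ^ (N / 32) * 2 ^ (N / 32))) + N * hh t N ≤ 2 ^ (N / 8)) := by
  refine (((ev_poly 2).and (ev_hh ht h 1)).and (Ev.ge 1000)).mono ?_
  rintro N ⟨⟨h1, h2⟩, h3⟩
  have h4 : hh t N ≤ 2 ^ (N / 64) := (hh_mono ht (by rw [pow_one]; omega)).trans h2
  have h5 : 2 * N ≤ 2 ^ (N / 64) := le_trans (by nlinarith) h1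
  have h6 : N * (2 * (2 ^ (N / 32) * 2 ^ (N / 32))) ≤ 2 ^ (N / 8 - 1) := by
    calc N * (2 * (2 ^ (N / 32) * 2 ^ (N / 32))) = (2 * N) * (2 ^ (N / 32) * 2 ^ (N / 32)) := by
          ring
      _ ≤ 2 ^ (N / 64) * (2 ^ (N / 32) * 2 ^ (N / 32)) := Nat.mul_le_mul_right _ h5
      _ = 2 ^ (N / 64 + (N / 32 + N / 32)) := by rw [← pow_add, ← pow_add]
      _ ≤ 2 ^ (N / 8 - 1) := Nat.pow_le_pow_right (by norm_num) (by omega)
  have h7 : N * hh t N ≤ 2 ^ (N / 8 - 1) := by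
    calc N * hh t N ≤ 2 ^ (N / 64) * 2 ^ (N / 64) := Nat.mul_le_mul (by omega) h4
      _ = 2 ^ (N / 64 + N / 64) := by rw [← pow_add]
      _ ≤ 2 ^ (N / 8 - 1) := Nat.pow_le_pow_right (by norm_num) (by omega)
  have h8 : 2 ^ (N / 8) = 2 ^ (N / 8 - 1) + 2 ^ (N / 8 - 1) := by
    rw [← two_mul, ← pow_succ']
    congr 1
    omega
  omega

theorem ev2 : Ev (fun n => (2 * n + 2) * 2 ^ ((2 * n + 2) / 8) < 2 ^ n) := by
  refine ((ev_poly 2).and (Ev.ge 1000)).mono ?_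
  rintro n ⟨h1, h2⟩
  have h3 : 2 * n + 2 ≤ 2 ^ (n / 64) := le_trans (by nlinarith) h1
  calc (2 * n + 2) * 2 ^ ((2 * n + 2) / 8) ≤ 2 ^ (n / 64) * 2 ^ ((2 * n + 2) / 8) :=
        Nat.mul_le_mul_right _ h3
    _ = 2 ^ (n / 64 + (2 * n + 2) / 8) := by rw [← pow_add]
    _ < 2 ^ n := Nat.pow_lt_pow_right (by norm_num) (by omega)

theorem ev3 {t : ℕ → ℕ} (ht : Monotone t) (h : ∀ k, ∃ n₀, ∀ n ≥ n₀, t (n ^ k) ≤ 2 ^ n) (d : ℕ) :
    Ev (fun m => m * 2 ^ (m / 8) + (m + 2) ^ d * ((m + 2) ^ d * hh t ((m + 2) ^ d)) < 2 ^ m) := by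
  refine ((((ev_poly 1).and (ev_poly d)).and (ev_hh ht h d)).and (Ev.ge 1000)).mono ?_
  rintro m ⟨⟨⟨h1, h2⟩, h3⟩, h4⟩
  rw [pow_one] at h1
  have h5 : m * 2 ^ (m / 8) ≤ 2 ^ (m - 2) := by
    calc m * 2 ^ (m / 8) ≤ 2 ^ (m / 64) * 2 ^ (m / 8) := Nat.mul_le_mul_right _ (by omega)
      _ = 2 ^ (m / 64 + m / 8) := by rw [← pow_add]
      _ ≤ 2 ^ (m - 2) := Nat.pow_le_pow_right (by norm_num) (by omega)
  have h6 : (m + 2) ^ d * ((m + 2) ^ d * hh t ((m + 2) ^ d)) ≤ 2 ^ (m - 2) := by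
    calc (m + 2) ^ d * ((m + 2) ^ d * hh t ((m + 2) ^ d))
        ≤ 2 ^ (m / 64) * (2 ^ (m / 64) * 2 ^ (m / 64)) := Nat.mul_le_mul h2 (Nat.mul_le_mul h2 h3)
      _ = 2 ^ (m / 64 + (m / 64 + m / 64)) := by rw [← pow_add, ← pow_add]
      _ ≤ 2 ^ (m - 2) := Nat.pow_le_pow_right (by norm_num) (by omega)
  have h7 : 2 ^ m = 4 * 2 ^ (m - 2) := by
    have : 4 * 2 ^ (m - 2) = 2 ^ (2 + (m - 2)) := by rw [pow_add]; norm_num
    rw [this]
    congr 1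
    omega
  have h8 : 0 < 2 ^ (m - 2) := by positivity
  omega

/-- polynomials are bounded by powers -/
theorem poly_le (Q : Polynomial ℕ) : ∃ e, ∀ a, Q.eval a ≤ (a + 2) ^ e := by
  induction Q using Polynomial.induction_on' with
  | add p q hp hq =>
    obtain ⟨e, he⟩ := hp
    obtain ⟨f, hf⟩ := hq
    refine ⟨max e f + 1, fun a => ?_⟩
    rw [Polynomial.eval_add, pow_succ]
    have h1 : (a + 2) ^ e ≤ (a + 2) ^ max e f := Nat.pow_le_pow_right (by omega) (le_max_left _ _)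
    have h2 : (a + 2) ^ f ≤ (a + 2) ^ max e f := Nat.pow_le_pow_right (by omega) (le_max_right _ _)
    have h3 := he a
    have h4 := hf a
    nlinarith [Nat.zero_le a, Nat.zero_le ((a + 2) ^ max e f)]
  | monomial k c =>
    refine ⟨c + k, fun a => ?_⟩
    rw [Polynomial.eval_monomial, pow_add]
    refine Nat.mul_le_mul ?_ (Nat.pow_le_pow_left (by omega) _)
    calc c ≤ 2 ^ c := Nat.lt_two_pow_self.le
      _ ≤ (a + 2) ^ c := Nat.pow_le_pow_left (by omega) _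

theorem ev_clock (t : ℕ → ℕ) (Q : Polynomial ℕ) : Ev (fun n => Q.eval (t n) ≤ hh t n) := by
  obtain ⟨e, he⟩ := poly_le Q
  refine ⟨2 ^ e, fun n hn => (he _).trans ?_⟩
  unfold hh
  refine Nat.pow_le_pow_right (by omega) ?_
  have h1 : Nat.log 2 (2 ^ e) ≤ Nat.log 2 n := Nat.log_mono_right hn
  rwa [Nat.log_pow (by norm_num)] at h1

end Pool.Agent.H58.BH
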