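import Pool.Agent.H58.BH.Seq
import Pool.Agent.H58.BH.Num
import Pool.Agent.H65.TS.Large

set_option autoImplicit false

/-!
# The problems separated by the trees
-/

namespace Pool.Agent.H58.BH

open Pool.Agent.H88.RO Pool.Agent.H88.RO.Tr Pool.Agent.H65.TS Pool.Agent.H65.BP

/-- the problems given by two numbered machines on the input `x` -/
def P1 (K N₀ N₁ i₀ i₁ : ℕ) (x : List Bool) : Prb where
  k := K
  c b := mach (if b then i₁ else i₀)
  arg _ y := node (enc x) (enc y)
  acc b y r := y.length ≤ (if b then N₁ else N₀) ∧ snd r ≠ leaf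

/-- find `y` of length at most `N` which is mapped to `Y` by machine `i`, such that `b z` is a
suffix of `1^N 0 y` -/
def P2 (K N i : ℕ) (z Y : List Bool) : Prb where
  k := K
  c _ := mach i
  arg _ y := enc y
  acc b y r := y.length ≤ N ∧ (b :: z) <:+ (List.replicate N true ++ false :: y) ∧
    r = node leaf (enc Y)

/-- the code of `P1`, with a number `R` and padding -/
def q1 (K N₀ N₁ i₀ i₁ R p : ℕ) (x : List Bool) : List Bool :=
  false :: ins K N₀ i₀ (ins R N₁ i₁ (List.replicate p true ++ false :: x))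

/-- the code of `P2`, with a number `R` and padding -/
def q2 (K N i R p : ℕ) (z Y : List Bool) : List Bool :=
  true :: ins K N i (ins R 0 0 (List.replicate p true ++ false ::
    (List.replicate z.length true ++ false :: (z ++ Y))))

/-- the problem coded by a string -/
def prb : List Bool → Prb
  | [] => P1 0 0 0 0 0 []
  | false :: w => P1 (zK w) (zN w) (zN (zx w)) (zi w) (zi (zx w)) (zy (zx w))
  | true :: w => P2 (zK w) (zN w) (zi w) ((prs (zy (zx w))).2.take (prs (zy (zx w))).1)
      ((prs (zy (zx w))).2.drop (prs (zy (zx w))).1)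

/-- the number `R` coded by a string -/
def Rf (v : List Bool) : ℕ := zK (zx v.tail)

theorem zy_pad (K N i p : ℕ) (x : List Bool) :
    zy (ins K N i (List.replicate p true ++ false :: x)) = x := by
  rw [zy, zx_ins, prs_ones]

@[simp] theorem prb_q1 (K N₀ N₁ i₀ i₁ R p : ℕ) (x : List Bool) :
    prb (q1 K N₀ N₁ i₀ i₁ R p x) = P1 K N₀ N₁ i₀ i₁ x := by
  simp only [prb, q1, zK_ins, zN_ins, zi_ins, zx_ins, zy_pad]

@[simp] theorem prb_q2 (K N i R p : ℕ) (z Y : List Bool) :
    prb (q2 K N i R p z Y) = P2 K N i z Y := by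
  simp only [prb, q2, zK_ins, zN_ins, zi_ins, zx_ins, zy_pad, prs_ones, List.take_left,
    List.drop_left]

@[simp] theorem Rf_q1 (K N₀ N₁ i₀ i₁ R p : ℕ) (x : List Bool) :
    Rf (q1 K N₀ N₁ i₀ i₁ R p x) = R := by
  simp only [Rf, q1, List.tail_cons, zx_ins, zK_ins]

@[simp] theorem Rf_q2 (K N i R p : ℕ) (z Y : List Bool) : Rf (q2 K N i R p z Y) = R := by
  simp only [Rf, q2, List.tail_cons, zx_ins, zK_ins]

theorem le_length_q1 (K N₀ N₁ i₀ i₁ R p : ℕ) (x : List Bool) :
    p ≤ (q1 K N₀ N₁ i₀ i₁ R p x).length := by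
  simp only [q1, List.length_cons, ins_length, List.length_append, List.length_replicate]
  omega

theorem le_length_q2 (K N i R p : ℕ) (z Y : List Bool) : p ≤ (q2 K N i R p z Y).length := by
  simp only [q2, List.length_cons, ins_length, List.length_append, List.length_replicate]
  omega

/-- families of problems: kind, machines, clock and length bounds -/
abbrev Fam : Type := Bool × ℕ × ℕ × Polynomial ℕ × Polynomial ℕ × Polynomial ℕ

/-- the problems of a family -/
def fm : Fam → Set Prb
  | (false, i₀, i₁, k, n₀, n₁) =>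
    {P | ∃ x : List Bool, P = P1 (k.eval x.length) (n₀.eval x.length) (n₁.eval x.length) i₀ i₁ x}
  | (true, i, _, k, n, _) =>
    {P | ∃ z Y : List Bool, P = P2 (k.eval Y.length) (n.eval Y.length) i z Y}

theorem exists_famEnum : ∃ φ : ℕ → Fam, Function.Surjective φ := exists_surjective_nat _

theorem exists_machEnum : ∃ μ : ℕ → Tr × Polynomial ℕ, Function.Surjective μ :=
  exists_surjective_nat _

end Pool.Agent.H58.BH
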