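import Pool.Agent.H58.BH.World

set_option autoImplicit false

/-!
# The NP-complete sets
-/

namespace Pool.Agent.H58.BH

open Pool.Agent.H88.RO Pool.Agent.H88.RO.Tr Pool.Agent.H65.TS Pool.Agent.H65.BP

variable {O : List Bool → Bool}

theorem inP_of_FP {F : Tr → Tr} (hF : FP O F) {S : Set (List Bool)}
    (h : ∀ x, F (enc x) ≠ leaf ↔ x ∈ S) : InP O S := by
  classical
  obtain ⟨c, q, hc⟩ := FP.cs' hF FP.leaf' (FP.const' tt)
  refine ⟨c, q.comp (4 * Polynomial.X + 1), fun n x hx => ?_⟩
  obtain ⟨t, ht, he⟩ := hc (enc x)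
  refine ⟨t, ht.trans ?_, ?_⟩
  · simp only [Polynomial.eval_comp, Polynomial.eval_add, Polynomial.eval_mul,
      Polynomial.eval_ofNat, Polynomial.eval_X, Polynomial.eval_one]
    rw [← hx]
    exact poly_mono q (size_enc_le x)
  · have : cs (F (enc x)) leaf tt = bit (decide (x ∈ S)) := by
      by_cases h1 : x ∈ S
      · rw [cs_neg _ _ ((h x).mpr h1), decide_eq_true h1]; rfl
      · rw [cs_pos _ _ (by
          by_contra hcon
          exact h1 ((h x).mp hcon)), decide_eq_false h1]; rfl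
    rw [← this]
    exact he

theorem enc_injective : Function.Injective enc := fun x y h => by
  rw [← dec_enc x, h, dec_enc]

/-! ### composition -/

theorem PolyTimeFun.comp' {f g : List Bool → List Bool} (hg : PolyTimeFun O g)
    (hf : PolyTimeFun O f) : PolyTimeFun O (fun x => g (f x)) := by
  obtain ⟨cf, qf, hf⟩ := hf
  obtain ⟨cg, qg, hg⟩ := hg
  refine ⟨Prog.comp cg cf, qf + qg.comp (2 * qf) + 4 * Polynomial.X + 2, fun x => ?_⟩
  obtain ⟨t1, ht1, he1⟩ := hf x
  obtain ⟨t2, ht2, he2⟩ := hg (f x)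
  refine ⟨_, ?_, Eval.comp he1 he2⟩
  simp only [Polynomial.eval_comp, Polynomial.eval_add, Polynomial.eval_mul,
      Polynomial.eval_ofNat, Polynomial.eval_X]
  have h1 := he1.size_le
  have h2 := len_le_size (enc (f x))
  rw [len_enc] at h2
  have h3 : qg.eval (f x).length ≤ qg.eval (2 * qf.eval x.length) := poly_mono qg (by omega)
  have h4 := size_enc_le x
  omega

theorem PolyTimeFun.length_le {f : List Bool → List Bool} (hf : PolyTimeFun O f) :
    ∃ p : Polynomial ℕ, ∀ x, (f x).length ≤ p.eval x.length := by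
  obtain ⟨cf, qf, hf⟩ := hf
  refine ⟨2 * qf, fun x => ?_⟩
  obtain ⟨t1, ht1, he1⟩ := hf x
  simp only [Polynomial.eval_mul, Polynomial.eval_ofNat]
  have h1 := he1.size_le
  have h2 := len_le_size (enc (f x))
  rw [len_enc] at h2
  omega

theorem Reduces.trans {A B C : Set (List Bool)} (h : Reduces O A B) (h' : Reduces O B C) :
    Reduces O A C := by
  obtain ⟨f, hf, hfB⟩ := h
  obtain ⟨g, hg, hgC⟩ := h'
  exact ⟨fun x => g (f x), PolyTimeFun.comp' hg hf, fun x => (hfB x).trans (hgC _)⟩

theorem InP.of_reduces {A B : Set (List Bool)} (h : Reduces O A B) (hB : InP O B) : InP O A := by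
  obtain ⟨f, ⟨cf, qf, hf⟩, hfB⟩ := h
  obtain ⟨cg, qg, hg⟩ := hB
  refine ⟨Prog.comp cg cf, qf + qg.comp (2 * qf) + 4 * Polynomial.X + 2, fun n x hx => ?_⟩
  subst hx
  obtain ⟨t1, ht1, he1⟩ := hf x
  obtain ⟨t2, ht2, he2⟩ := hg _ (f x) rfl
  have e : bit (@decide (f x ∈ B) (Classical.propDecidable _)) =
      bit (@decide (x ∈ A) (Classical.propDecidable _)) := by
    congr 1
    rw [decide_eq_decide]
    exact (hfB x).symm
  rw [e] at he2
  refine ⟨_, ?_, Eval.comp he1 he2⟩
  simp only [Polynomial.eval_comp, Polynomial.eval_add, Polynomial.eval_mul,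
      Polynomial.eval_ofNat, Polynomial.eval_X]
  have h1 := he1.size_le
  have h2 := len_le_size (enc (f x))
  rw [len_enc] at h2
  have h3 : qg.eval (f x).length ≤ qg.eval (2 * qf.eval x.length) := poly_mono qg (by omega)
  have h4 := size_enc_le x
  omega

/-! ### numbered machines for sets in NP -/

theorem exists_index_np {L : Set (List Bool)} (hL : InNP O L) :
    ∃ (i : ℕ) (k n : Polynomial ℕ), ∀ (x : List Bool) (K : ℕ), k.eval x.length ≤ K →
      ((∃ y, Usol O i K (n.eval x.length) x y) ↔ x ∈ L) := by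
  obtain ⟨R, p, ⟨c, q, hc⟩, hR⟩ := hL
  refine ⟨sval (rpn (code c)), Polynomial.C (size (code c) + 10) * q.comp (Polynomial.X + p) + 10,
    p, fun x K hK => ?_⟩
  rw [hR]
  refine exists_congr fun y => ?_
  unfold Usol
  rw [mach_sval]
  refine and_congr_right fun hy => ?_
  obtain ⟨t, ht, he⟩ := hc x y
  rw [U_eq he]
  · rw [snd_node, bit_ne_leaf]
  · simp only [Polynomial.eval_add, Polynomial.eval_mul, Polynomial.eval_C,
      Polynomial.eval_comp, Polynomial.eval_X, Polynomial.eval_ofNat] at hK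
    have h1 : q.eval (x.length + y.length) ≤ q.eval (x.length + p.eval x.length) :=
      poly_mono q (by omega)
    have h2 := Nat.mul_le_mul_left (size (code c) + 10) (ht.trans h1)
    omega

/-! ### the universal set -/

/-- program for `zy` -/
def ty (z : Tr) : Tr := fst (snd (parseT (tx z)))

@[simp] theorem ty_enc (z : List Bool) : ty (enc z) = enc (zy z) := by
  rw [ty, tx_enc, snd_parseT, zy]

theorem FP.ty' {F : Tr → Tr} (hF : FP O F) : FP O (fun v => ty (F v)) :=
  FP.fst' (FP.snd' (FP.parseT' (FP.tx' hF)))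

/-- test for `KK`, with the witness -/
def kkT (O : List Bool → Bool) (z y : Tr) : Tr :=
  cs (dropU z (mulU (tK z) (tK z))) (usT O (ti z) (tK z) (tN z) (ty z) y) leaf

theorem kkT_spec (z y : List Bool) : kkT O (enc z) (enc y) ≠ leaf ↔
    zK z * zK z ≤ z.length ∧ Usol O (zi z) (zK z) (zN z) (zy z) y := by
  unfold kkT
  rw [tK_enc, ti_enc, tN_enc, ty_enc, mulU_eq, len_num]
  by_cases h : zK z * zK z ≤ z.length
  · rw [cs_pos _ _ (by rw [dropU_eq_leaf, len_num, len_enc]; exact h), usT_spec, len_num, len_num,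
      len_num]
    simp [h]
  · rw [cs_neg _ _ (by rw [ne_eq, dropU_eq_leaf, len_num, len_enc]; exact h)]
    simp [h]

theorem FP.kkT' {F G : Tr → Tr} (hF : FP O F) (hG : FP O G) :
    FP O (fun v => kkT O (F v) (G v)) := by
  unfold kkT
  exact FP.cs' (FP.dropU' hF (FP.mulU' (FP.tK' hF) (FP.tK' hF)))
    (FP.usT' (FP.ti' hF) (FP.tK' hF) (FP.tN' hF) (FP.ty' hF) hG) FP.leaf'

theorem inNP_KK (β : List Bool → DT (List Bool)) (Ω : List Bool → Bool) :
    InNP (orc β Ω) {z | KK β Ω z} := by
  classical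
  refine ⟨fun z y => decide (zK z * zK z ≤ z.length ∧
    Usol (orc β Ω) (zi z) (zK z) (zN z) (zy z) y), Polynomial.X, ?_, fun z => ?_⟩
  · refine polyTimeRel_of_FP (F := fun v => kkT (orc β Ω) (fst v) (snd v))
      (FP.kkT' (FP.fst' FP.id') (FP.snd' FP.id')) (fun x y => ?_)
    rw [fst_node, snd_node, kkT_spec, decide_eq_true_eq]
  · simp only [Set.mem_ofPred_eq, KK, Polynomial.eval_X, decide_eq_true_eq]
    constructor
    · rintro ⟨h, y, hy⟩
      have h1 := z_le z
      have h2 := hy.1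
      exact ⟨y, by omega, h, hy⟩
    · rintro ⟨y, _, h, hy⟩
      exact ⟨h, y, hy⟩

/-- the reduction to `KK` -/
def red (i : ℕ) (k n : Polynomial ℕ) (x : List Bool) : List Bool :=
  ins (k.eval x.length) (n.eval x.length) i
    (List.replicate (k.eval x.length * k.eval x.length) true ++ false :: x)

theorem zy_red (i : ℕ) (k n : Polynomial ℕ) (x : List Bool) : zy (red i k n x) = x :=
  zy_pad _ _ _ _ _

theorem red_injective (i : ℕ) (k n : Polynomial ℕ) : Function.Injective (red i k n) := by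
  intro x y h
  rw [← zy_red i k n x, h, zy_red]

theorem polyTimeFun_red (O : List Bool → Bool) (i : ℕ) (k n : Polynomial ℕ) :
    PolyTimeFun O (red i k n) := by
  obtain ⟨Pk, hk1, hk2⟩ := exists_polyT k
  obtain ⟨Pn, hn1, hn2⟩ := exists_polyT n
  refine polyTimeFun_of_FP (F := fun v => insT (Pk v) (Pn v) (num i)
    (onesPre (mulU (Pk v) (Pk v)) (node leaf v)))
    (FP.insT' (hk2 _ _ FP.id') (hn2 _ _ FP.id') (FP.const' _)
      (FP.onesPre' (FP.mulU' (hk2 _ _ FP.id') (hk2 _ _ FP.id')) (FP.node' FP.leaf' FP.id')))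
    (fun x => ?_)
  have e : node leaf (enc x) = enc (false :: x) := rfl
  rw [e, onesPre_enc, insT_eq, mulU_eq, hk1, hn1, len_num, len_num, len_num, len_num, len_enc, red]

theorem KK_red (β : List Bool → DT (List Bool)) (Ω : List Bool → Bool) (i : ℕ)
    (k n : Polynomial ℕ) (x : List Bool) : KK β Ω (red i k n x) ↔
      ∃ y, Usol (orc β Ω) i (k.eval x.length) (n.eval x.length) x y := by
  unfold KK
  rw [zy_red]
  simp only [red, zK_ins, zN_ins, zi_ins]
  refine and_iff_right ?_
  rw [ins_length, List.length_append, List.length_replicate]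
  omega

theorem npc_KK (β : List Bool → DT (List Bool)) (Ω : List Bool → Bool) :
    NPComplete (orc β Ω) {z | KK β Ω z} := by
  refine ⟨inNP_KK β Ω, fun B hB => ?_⟩
  obtain ⟨i, k, n, h⟩ := exists_index_np hB
  exact ⟨red i k n, polyTimeFun_red _ i k n, fun x => by
    rw [Set.mem_ofPred_eq, KK_red, h x _ le_rfl]⟩

/-! ### the thin set -/

/-- the second NP-complete set -/
def CC (β : List Bool → DT (List Bool)) (Ω : List Bool → Bool) : Set (List Bool) :=
  {z | KK β Ω z ∧ Ω (true :: z) = false}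

theorem inNP_CC (β : List Bool → DT (List Bool)) (Ω : List Bool → Bool) :
    InNP (orc β Ω) (CC β Ω) := by
  classical
  refine ⟨fun z y => decide ((zK z * zK z ≤ z.length ∧
    Usol (orc β Ω) (zi z) (zK z) (zN z) (zy z) y) ∧ Ω (true :: z) = false), Polynomial.X, ?_,
    fun z => ?_⟩
  · refine polyTimeRel_of_FP (F := fun v => cs (bit (orc β Ω (dec (node leaf (node tt (fst v))))))
      (kkT (orc β Ω) (fst v) (snd v)) leaf)
      (FP.cs' (FP.query' (FP.node' FP.leaf' (FP.node' (FP.const' _) (FP.fst' FP.id'))))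
        (FP.kkT' (FP.fst' FP.id') (FP.snd' FP.id')) FP.leaf') (fun x y => ?_)
    have e : node leaf (node tt (enc x)) = enc (false :: true :: x) := rfl
    have e2 : orc β Ω (false :: true :: x) = Ω (true :: x) := rfl
    rw [fst_node, snd_node, e, dec_enc, decide_eq_true_eq, e2]
    by_cases h : Ω (true :: x) = false
    · rw [h, cs_pos _ _ bit_false, kkT_spec]
      simp
    · rw [cs_neg _ _ (bit_ne_leaf.mpr (by simpa using h))]
      simp [h]
  · simp only [Set.mem_ofPred_eq, CC, KK, Polynomial.eval_X, decide_eq_true_eq]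
    constructor
    · rintro ⟨⟨h, y, hy⟩, hz⟩
      have h1 := z_le z
      have h2 := hy.1
      exact ⟨y, by omega, ⟨h, hy⟩, hz⟩
    · rintro ⟨y, _, ⟨h, hy⟩, hz⟩
      exact ⟨⟨h, y, hy⟩, hz⟩

theorem npc_CC {β : List Bool → DT (List Bool)} {Ω : List Bool → Bool} (hΩ : Leg β Ω)
    {c₀ : List Bool} (h0 : c₀ ∈ CC β Ω) : NPComplete (orc β Ω) (CC β Ω) := by
  refine ⟨inNP_CC β Ω, fun B hB => ?_⟩
  refine Reduces.trans ((npc_KK β Ω).2 B hB) ?_
  refine ⟨fun z => if Ω (true :: z) = false then z else c₀, ?_, fun z => ?_⟩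
  · refine polyTimeFun_of_FP (F := fun v => cs (bit (orc β Ω (dec (node leaf (node tt v)))))
      v (enc c₀)) (FP.cs' (FP.query' (FP.node' FP.leaf' (FP.node' (FP.const' _) FP.id')))
        FP.id' (FP.const' _)) (fun x => ?_)
    have e : node leaf (node tt (enc x)) = enc (false :: true :: x) := rfl
    have e2 : orc β Ω (false :: true :: x) = Ω (true :: x) := rfl
    rw [e, dec_enc, e2]
    by_cases h : Ω (true :: x) = false
    · rw [if_pos h, h, cs_pos _ _ bit_false]
    · rw [if_neg h, cs_neg _ _ (bit_ne_leaf.mpr (by simpa using h))]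
  · show KK β Ω z ↔ (if Ω (true :: z) = false then z else c₀) ∈ CC β Ω
    by_cases h : Ω (true :: z) = false
    · rw [if_pos h]
      exact ⟨fun h' => ⟨h', h⟩, fun h' => h'.1⟩
    · rw [if_neg h]
      exact ⟨fun _ => h0, fun _ => hΩ z (by simpa using h)⟩

/-! ### concatenation -/

/-- concatenation -/
def appT (x y : Tr) : Tr := snd (nstep^[len (revN x)] (node (revN x) y))

@[simp] theorem appT_enc (x y : List Bool) : appT (enc x) (enc y) = enc (x ++ y) := by
  rw [appT, nstep_iter, snd_node, revN_eq, dec_enc, dec_enc, List.reverse_reverse]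

theorem FP_nstep : FP O nstep := by
  unfold nstep tt
  exact FP.ite' (FP.fst' FP.id') FP.id' (FP.node' (FP.snd' (FP.fst' FP.id'))
    (FP.node' (FP.ite' (FP.fst' (FP.fst' FP.id')) FP.leaf' (FP.const' _)) (FP.snd' FP.id')))

theorem size_nstep_le (x : Tr) : size (nstep x) ≤ size x + 10 := by
  have a1 := size_snd_le (fst x)
  have a2 : size (fst x) + size (snd x) ≤ size x + 1 := by
    cases x with
    | leaf => simp [size]
    | node p q => simp [size]; omega
  unfold nstep
  split_ifs <;> first | omega | (simp only [size, tt]; omega)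

theorem FP.appT' {F G : Tr → Tr} (hF : FP O F) (hG : FP O G) :
    FP O (fun v => appT (F v) (G v)) :=
  FP.snd' (FP.iterate_add FP_nstep (FP.revN' hF) (FP.node' (FP.revN' hF) hG) 10 size_nstep_le)

/-! ### the hard set -/

theorem inNP_LL (β : List Bool → DT (List Bool)) (Ω : List Bool → Bool) :
    InNP (orc β Ω) (LL Ω) := by
  classical
  refine ⟨fun x y => decide (y.length = x.length ∧ Ω (false :: (x ++ y)) = true), Polynomial.X,
    ?_, fun x => ?_⟩
  · refine polyTimeRel_of_FP (F := fun v => cs (dropU (fst v) (snd v)) (cs (dropU (snd v) (fst v))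
      (bit (orc β Ω (dec (node leaf (node leaf (appT (fst v) (snd v))))))) leaf) leaf)
      (FP.cs' (FP.dropU' (FP.fst' FP.id') (FP.snd' FP.id'))
        (FP.cs' (FP.dropU' (FP.snd' FP.id') (FP.fst' FP.id'))
          (FP.query' (FP.node' FP.leaf' (FP.node' FP.leaf' (FP.appT' (FP.fst' FP.id')
            (FP.snd' FP.id'))))) FP.leaf') FP.leaf') (fun x y => ?_)
    rw [fst_node, snd_node, appT_enc, decide_eq_true_eq]
    have e : node leaf (node leaf (enc (x ++ y))) = enc (false :: false :: (x ++ y)) := rfl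
    have e2 : orc β Ω (false :: false :: (x ++ y)) = Ω (false :: (x ++ y)) := rfl
    rw [e, dec_enc, e2]
    by_cases h1 : y.length ≤ x.length
    · rw [cs_pos _ _ (by rw [dropU_eq_leaf, len_enc, len_enc]; exact h1)]
      by_cases h2 : x.length ≤ y.length
      · rw [cs_pos _ _ (by rw [dropU_eq_leaf, len_enc, len_enc]; exact h2), bit_ne_leaf]
        exact (and_iff_right (le_antisymm h1 h2)).symm
      · rw [cs_neg _ _ (by rw [ne_eq, dropU_eq_leaf, len_enc, len_enc]; exact h2)]
        simp only [ne_eq, not_true_eq_false, false_iff, not_and]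
        intro h3
        omega
    · rw [cs_neg _ _ (by rw [ne_eq, dropU_eq_leaf, len_enc, len_enc]; exact h1)]
      simp only [ne_eq, not_true_eq_false, false_iff, not_and]
      intro h3
      omega
  · simp only [LL, Set.mem_ofPred_eq, Polynomial.eval_X, decide_eq_true_eq]
    exact exists_congr fun y => ⟨fun h => ⟨by omega, h⟩, fun h => h.2⟩

theorem hardAE_of_wrong {β : List Bool → DT (List Bool)} {Ω : List Bool → Bool} {t : ℕ → ℕ}
    (h : ∀ p : Tr × Polynomial ℕ, Ev (fun n => Wrong β n p.1 (Tc t p n) Ω)) :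
    HardAE (orc β Ω) t (LL Ω) := by
  classical
  intro c q
  obtain ⟨n₀, hn₀⟩ := h (code c, q)
  refine ⟨n₀, fun n hn hd => ?_⟩
  obtain ⟨x, hx, hw⟩ := hn₀ n hn
  obtain ⟨s, hs, he⟩ := hd x hx
  have hU := U_eq (K := Tc t (code c, q) n) he (by
    have := Nat.mul_le_mul_left (size (code c) + 10) hs
    show _ ≤ (size (code c) + 10) * q.eval (t n) + 10
    omega)
  rcases hw with ⟨h1, h2⟩ | ⟨h1, h2⟩
  · rw [hU, decide_eq_false h1] at h2
    simp [bit] at h2
  · rw [hU, decide_eq_true h1] at h2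
    exact h2 rfl

end Pool.Agent.H58.BH
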