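import Pool.Agent.H58.BH.Hard

set_option autoImplicit false

/-!
# The sequence of states and the limit world
-/

namespace Pool.Agent.H58.BH

open Pool.Agent.H88.RO Pool.Agent.H88.RO.Tr Pool.Agent.H65.TS Pool.Agent.H65.BP

/-- the family `j` is killed -/
def Dead {β : List Bool → DT (List Bool)} {N : ℕ} (fam : ℕ → Set Prb) (j : ℕ) (s : St β N) :
    Prop :=
  ∃ P ∈ fam j, ∀ ω', Ag (base N ∪ s.F) s.ω ω' → P.N (orc β ω') false ∧ P.N (orc β ω') true

/-- the family `j` can not be killed by problems with clock at most `κ` -/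
def Safe {β : List Bool → DT (List Bool)} {N : ℕ} (fam : ℕ → Set Prb) (j κ : ℕ) (s : St β N) :
    Prop :=
  ∀ P ∈ fam j, P.k ≤ κ → ∀ A, Leg β A → Ag (base N ∪ s.F) s.ω A →
    ¬ (P.N (orc β A) false ∧ P.N (orc β A) true)

theorem Dead.ext {β : List Bool → DT (List Bool)} {M N : ℕ} {fam : ℕ → Set Prb} {j : ℕ}
    {s : St β M} {t : St β N} (hMN : M ≤ N) (h : Dead fam j s) (hst : Ext s t) : Dead fam j t := by
  obtain ⟨P, hP, h⟩ := h
  exact ⟨P, hP, fun ω' hω' => h ω' (hst.ag hMN hω')⟩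

theorem Safe.ext {β : List Bool → DT (List Bool)} {M N : ℕ} {fam : ℕ → Set Prb} {j κ : ℕ}
    {s : St β M} {t : St β N} (hMN : M ≤ N) (h : Safe fam j κ s) (hst : Ext s t) :
    Safe fam j κ t :=
  fun P hP hk A hA hag => h P hP hk A hA (hst.ag hMN hag)

/-- killing all families of a list, if possible -/
theorem St.kills {β : List Bool → DT (List Bool)} (hβ : ∀ v, Sm (β v) v.length) {N : ℕ}
    (fam : ℕ → Set Prb) (κ : ℕ) (hκ : κ ≤ 2 ^ N) (J : List ℕ) : ∀ s : St β N,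
    ∃ t : St β N, Ext s t ∧ t.F.card ≤ s.F.card + J.length * (2 * (κ * κ)) ∧
      (∀ j ∈ J, Dead fam j t ∨ Safe fam j κ t) ∧
      (t = s ∨ ∃ j ∈ J, ¬ Dead fam j s ∧ Dead fam j t) := by
  induction J with
  | nil => intro s; exact ⟨s, Ext.refl s, by simp, by simp, Or.inl rfl⟩
  | cons j J ih =>
    intro s
    by_cases hd : Dead fam j s
    · obtain ⟨t, h1, h2, h3, h4⟩ := ih s
      refine ⟨t, h1, ?_, ?_, ?_⟩
      · rw [List.length_cons, Nat.succ_mul]; omega
      · intro j' hj'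
        rcases List.mem_cons.mp hj' with rfl | hj'
        · exact Or.inl (hd.ext le_rfl h1)
        · exact h3 j' hj'
      · rcases h4 with h4 | ⟨j', hj', h4⟩
        · exact Or.inl h4
        · exact Or.inr ⟨j', List.mem_cons_of_mem _ hj', h4⟩
    · by_cases hs : Safe fam j κ s
      · obtain ⟨t, h1, h2, h3, h4⟩ := ih s
        refine ⟨t, h1, ?_, ?_, ?_⟩
        · rw [List.length_cons, Nat.succ_mul]; omega
        · intro j' hj'
          rcases List.mem_cons.mp hj' with rfl | hj'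
          · exact Or.inr (hs.ext le_rfl h1)
          · exact h3 j' hj'
        · rcases h4 with h4 | ⟨j', hj', h4⟩
          · exact Or.inl h4
          · exact Or.inr ⟨j', List.mem_cons_of_mem _ hj', h4⟩
      · unfold Safe at hs
        push Not at hs
        obtain ⟨P, hP, hPk, A, hA, hag, h0, h1⟩ := hs
        obtain ⟨t, ht1, ht2, ht3⟩ := s.kill hβ P (hPk.trans hκ) hA hag h0 h1
        have hdt : Dead fam j t := ⟨P, hP, ht3⟩
        obtain ⟨u, hu1, hu2, hu3, hu4⟩ := ih t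
        refine ⟨u, ht1.trans le_rfl hu1, ?_, ?_, ?_⟩
        · have := Nat.mul_le_mul hPk hPk
          rw [List.length_cons, Nat.succ_mul]; omega
        · intro j' hj'
          rcases List.mem_cons.mp hj' with rfl | hj'
          · exact Or.inl (hdt.ext le_rfl hu1)
          · exact hu3 j' hj'
        · exact Or.inr ⟨j, by simp, hd, hdt.ext le_rfl hu1⟩

/-- the program `c` with clock `T` is wrong at length `n` in the world `ω` -/
def Wrong (β : List Bool → DT (List Bool)) (n : ℕ) (c : Tr) (T : ℕ) (ω : List Bool → Bool) :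
    Prop :=
  ∃ x : List Bool, x.length = n ∧
    ((x ∉ LL ω ∧ U (orc β ω) c (enc x) T = node leaf (bit true)) ∨
      (x ∈ LL ω ∧ U (orc β ω) c (enc x) T ≠ node leaf (bit true)))

theorem Hd.wrong {β : List Bool → DT (List Bool)} {n : ℕ} {c : Tr} {T : ℕ}
    {s : St β (2 * n + 1)} (h : Hd n c T s) {ω : List Bool → Bool}
    (hω : Ag (base (2 * n + 1 + 1) ∪ s.F) s.ω ω) : Wrong β n c T ω := by
  obtain ⟨x, hx, -, h⟩ := h
  have hlen : ∀ y : List Bool, y.length = n → (false :: (x ++ y)).length = 2 * n + 1 := by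
    intro y h2
    rw [List.length_cons, List.length_append, hx, h2]; ring
  have hsame : ∀ y : List Bool, y.length = n → ω (false :: (x ++ y)) = s.ω (false :: (x ++ y)) := by
    intro y hy
    refine hω _ (Finset.mem_union_left _ ?_)
    rw [mem_base, hlen y hy]
    omega
  have hω' : Ag (base (2 * n + 1) ∪ s.F) s.ω ω :=
    hω.mono (Finset.union_subset_union (base_mono (by omega)) (Finset.Subset.refl _))
  refine ⟨x, hx, ?_⟩
  rcases h with ⟨h1, h2⟩ | ⟨⟨y, hy, hyt⟩, h2⟩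
  · refine Or.inl ⟨?_, h2 ω hω'⟩
    rintro ⟨y, hy, hyt⟩
    rw [hx] at hy
    rw [hsame y hy, h1 y hy] at hyt
    cases hyt
  · exact Or.inr ⟨⟨y, by rw [hx]; exact hy, by rw [hsame y hy]; exact hyt⟩, h2 ω hω'⟩

/-- **One stage.** -/
theorem St.step {β : List Bool → DT (List Bool)} (hβ : ∀ v, Sm (β v) v.length) {N : ℕ}
    (fam : ℕ → Set Prb) (κ : ℕ) (hκ : κ ≤ 2 ^ N) (J : List ℕ) (C : List (Tr × ℕ))
    (hT : ∀ p ∈ C, p.2 ≤ 2 ^ N) (s : St β N)
    (hC : ∀ n, N = 2 * n + 1 → C ≠ [] →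
      s.F.card + J.length * (2 * (κ * κ)) + (C.map (fun p => p.2 * p.2 + 1)).sum < 2 ^ n) :
    ∃ t : St β (N + 1), Ext s t ∧
      t.F.card ≤ s.F.card + J.length * (2 * (κ * κ)) + (C.map (fun p => p.2 * p.2 + 1)).sum ∧
      (∀ j ∈ J, Dead fam j t ∨ Safe fam j κ t) ∧
      (t.F.card ≤ s.F.card + (C.map (fun p => p.2 * p.2 + 1)).sum ∨
        ∃ j ∈ J, ¬ Dead fam j s ∧ Dead fam j t) ∧
      ∀ n, N = 2 * n + 1 → ∀ p ∈ C, ∀ ω, Ag (base (N + 1) ∪ t.F) t.ω ω → Wrong β n p.1 p.2 ω := by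
  obtain ⟨t, ht1, ht2, ht3, ht4⟩ := s.kills hβ fam κ hκ J
  by_cases hodd : (∃ n, N = 2 * n + 1) ∧ C ≠ []
  · obtain ⟨⟨n, rfl⟩, hne⟩ := hodd
    obtain ⟨u, hu1, hu2, hu3, hu4⟩ := St.hards hβ C t hT (by
      have := hC n rfl hne
      omega)
    obtain ⟨v, hv1, hv2, hv3⟩ := u.up hβ
    have htv : Ext t v := hu1.trans le_rfl hv3
    refine ⟨v, ht1.trans le_rfl htv, ?_, ?_, ?_, ?_⟩
    · rw [hv1]; omega
    · intro j hj
      rcases ht3 j hj with h | h
      · exact Or.inl (h.ext (by omega) htv)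
      · exact Or.inr (h.ext (by omega) htv)
    · rcases ht4 with h | ⟨j, hj, h1, h2⟩
      · left
        rw [hv1]
        subst h
        exact hu2
      · exact Or.inr ⟨j, hj, h1, h2.ext (by omega) htv⟩
    · intro m hm p hp ω hω
      obtain rfl : n = m := by omega
      refine (hu3 p hp).wrong ?_
      rw [← hv1, ← hv2]
      exact hω
  · obtain ⟨v, hv1, hv2, hv3⟩ := t.up hβ
    refine ⟨v, ht1.trans le_rfl hv3, ?_, ?_, ?_, ?_⟩
    · rw [hv1]; omega
    · intro j hj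
      rcases ht3 j hj with h | h
      · exact Or.inl (h.ext (by omega) hv3)
      · exact Or.inr (h.ext (by omega) hv3)
    · rcases ht4 with h | ⟨j, hj, h1, h2⟩
      · left
        rw [hv1]
        subst h
        omega
      · exact Or.inr ⟨j, hj, h1, h2.ext (by omega) hv3⟩
    · intro m hm p hp ω hω
      exact absurd ⟨⟨m, hm⟩, List.ne_nil_of_mem hp⟩ hodd

/-- **The sequence of states.** -/
theorem exists_seq {β : List Bool → DT (List Bool)} (hβ : ∀ v, Sm (β v) v.length)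
    (fam : ℕ → Set Prb) (κ : ℕ → ℕ) (hκ : ∀ N, κ N ≤ 2 ^ N) (J : ℕ → List ℕ)
    (C : ℕ → List (Tr × ℕ)) (hT : ∀ N, ∀ p ∈ C N, p.2 ≤ 2 ^ N) (bd : ℕ → ℕ)
    (hbd : ∀ N, bd N + (J N).length * (2 * (κ N * κ N)) +
      ((C N).map (fun p => p.2 * p.2 + 1)).sum ≤ bd (N + 1))
    (hC : ∀ n, C (2 * n + 1) ≠ [] → bd (2 * n + 1 + 1) < 2 ^ n) :
    ∃ s : ∀ N, St β N, (s 0).F = ∅ ∧ (∀ N, (s N).F.card ≤ bd N) ∧ ∀ N, Ext (s N) (s (N + 1)) ∧
      (∀ j ∈ J N, Dead fam j (s (N + 1)) ∨ Safe fam j (κ N) (s (N + 1))) ∧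
      ((s (N + 1)).F.card ≤ (s N).F.card + ((C N).map (fun p => p.2 * p.2 + 1)).sum ∨
        ∃ j ∈ J N, ¬ Dead fam j (s N) ∧ Dead fam j (s (N + 1))) ∧
      ∀ n, N = 2 * n + 1 → ∀ p ∈ C N, ∀ ω, Ag (base (N + 1) ∪ (s (N + 1)).F) (s (N + 1)).ω ω →
        Wrong β n p.1 p.2 ω := by
  obtain ⟨s0, hs0⟩ := exists_init hβ
  have hstep : ∀ N (s : St β N), s.F.card ≤ bd N → ∃ t : St β (N + 1), t.F.card ≤ bd (N + 1) ∧
      Ext s t ∧ (∀ j ∈ J N, Dead fam j t ∨ Safe fam j (κ N) t) ∧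
      (t.F.card ≤ s.F.card + ((C N).map (fun p => p.2 * p.2 + 1)).sum ∨
        ∃ j ∈ J N, ¬ Dead fam j s ∧ Dead fam j t) ∧
      ∀ n, N = 2 * n + 1 → ∀ p ∈ C N, ∀ ω, Ag (base (N + 1) ∪ t.F) t.ω ω →
        Wrong β n p.1 p.2 ω := by
    intro N s hs
    obtain ⟨t, h1, h2, h3, h4, h5⟩ := s.step hβ fam (κ N) (hκ N) (J N) (C N) (hT N) (by
      intro n hn hne
      subst hn
      have a1 := hC n hne
      have a2 := hbd (2 * n + 1)
      omega)
    have := hbd N
    exact ⟨t, by omega, h1, h3, h4, h5⟩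
  choose nxt hn using hstep
  let σ : ∀ N, {s : St β N // s.F.card ≤ bd N} := fun N =>
    Nat.rec ⟨s0, by rw [hs0]; simp⟩ (fun N s => ⟨nxt N s.1 s.2, (hn N s.1 s.2).1⟩) N
  refine ⟨fun N => (σ N).1, hs0, fun N => (σ N).2, fun N => ?_⟩
  exact (hn N (σ N).1 (σ N).2).2

/-- **The limit world.** -/
theorem exists_limit {β : List Bool → DT (List Bool)} (hβ : ∀ v, Sm (β v) v.length)
    (s : ∀ N, St β N) (hs : ∀ N, Ext (s N) (s (N + 1))) :
    ∃ Ω : List Bool → Bool, Leg β Ω ∧ (∀ N, Ag (base N ∪ (s N).F) (s N).ω Ω) ∧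
      ∀ z, KK β Ω z → Ω (true :: z) = false → true :: z ∈ (s (z.length + 2)).F := by
  classical
  have hext : ∀ M N, M ≤ N → Ext (s M) (s N) := by
    intro M N h
    induction h with
    | refl => exact Ext.refl _
    | step h ih => exact ih.trans h (hs _)
  let Ω : List Bool → Bool := fun v => (s (v.length + 1)).ω v
  have hag : ∀ N, Ag (base N ∪ (s N).F) (s N).ω Ω := by
    intro N v hv
    rcases Nat.lt_or_ge v.length N with hlt | hge
    · have h1 := (hext (v.length + 1) N (by omega)).2 v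
        (Finset.mem_union_left _ (mem_base.mpr (by omega)))
      exact h1.symm
    · exact (hext N (v.length + 1) (by omega)).2 v hv
  have hK : ∀ N z, z.length < N → (KK β Ω z ↔ KK β (s N).ω z) := by
    intro N z hz
    refine KK_local hβ (fun p hp => ?_)
    exact hag N p (Finset.mem_union_left _ (mem_base.mpr (by omega)))
  refine ⟨Ω, fun z hz => ?_, hag, fun z hz hzt => ?_⟩
  · have e : (s (z.length + 2)).ω (true :: z) = true := hz
    exact (hK _ z (by omega)).mpr ((s _).legal z e)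
  · by_contra hcon
    have h1 := ((s (z.length + 2)).exact z hcon).mpr ((hK _ z (by omega)).mp hz)
    have e : Ω (true :: z) = (s (z.length + 2)).ω (true :: z) := rfl
    rw [e, h1] at hzt
    cases hzt

end Pool.Agent.H58.BH
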