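import Pool.Agent.H58.BH.Trees
import Pool.Agent.H88.RO.Measure

set_option autoImplicit false

/-!
# The states of the construction
-/

namespace Pool.Agent.H58.BH

open Pool.Agent.H88.RO Pool.Agent.H88.RO.Tr Pool.Agent.H65.TS Pool.Agent.H65.BP

/-- the names shorter than `N` -/
def base (N : ℕ) : Finset (List Bool) := (Finset.range N).biUnion strs

theorem mem_base {N : ℕ} {v : List Bool} : v ∈ base N ↔ v.length < N := by
  unfold base
  simp only [Finset.mem_biUnion, Finset.mem_range, mem_strs]
  constructor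
  · rintro ⟨a, h1, h2⟩; omega
  · intro h; exact ⟨v.length, h, rfl⟩

theorem card_base (N : ℕ) : (base N).card < 2 ^ N := by
  induction N with
  | zero => simp [base]
  | succ N ih =>
    have h1 : base (N + 1) = base N ∪ strs N := by
      ext v
      rw [Finset.mem_union, mem_base, mem_base, mem_strs]
      omega
    have h2 := Finset.card_union_le (base N) (strs N)
    rw [h1, pow_succ]
    rw [card_strs] at h2
    omega

theorem base_mono {M N : ℕ} (h : M ≤ N) : base M ⊆ base N := by
  intro v hv
  rw [mem_base] at hv ⊢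
  omega

/-- A state at stage `N`: the names shorter than `N` and those in `F` are frozen; the current world
is legal, exact outside of `F`, and false at all other long names. -/
structure St (β : List Bool → DT (List Bool)) (N : ℕ) where
  F : Finset (List Bool)
  ω : List Bool → Bool
  legal : Leg β ω
  exact : ∀ z, true :: z ∉ F → (ω (true :: z) = true ↔ KK β ω z)
  zero : ∀ v ∉ F, N ≤ v.length → (∀ z, v ≠ true :: z) → ω v = false
  closed : Cl β (base N ∪ F) ω
  short : ∀ v ∈ F, v.length < 2 ^ N

/-- the state `t` extends the state `s` -/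
def Ext {β : List Bool → DT (List Bool)} {M N : ℕ} (s : St β M) (t : St β N) : Prop :=
  s.F ⊆ t.F ∧ Ag (base M ∪ s.F) s.ω t.ω

theorem Ext.refl {β : List Bool → DT (List Bool)} {N : ℕ} (s : St β N) : Ext s s :=
  ⟨Finset.Subset.refl _, Ag.refl _ _⟩

theorem Ext.trans {β : List Bool → DT (List Bool)} {L M N : ℕ} {s : St β L} {t : St β M}
    {u : St β N} (hLM : L ≤ M) (h1 : Ext s t) (h2 : Ext t u) : Ext s u :=
  ⟨h1.1.trans h2.1, h1.2.trans (h2.2.mono (Finset.union_subset_union (base_mono hLM) h1.1))⟩

/-- a world above a later state is above the earlier state -/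
theorem Ext.ag {β : List Bool → DT (List Bool)} {M N : ℕ} {s : St β M} {t : St β N}
    (hMN : M ≤ N) (h : Ext s t) {ω : List Bool → Bool} (hω : Ag (base N ∪ t.F) t.ω ω) :
    Ag (base M ∪ s.F) s.ω ω :=
  h.2.trans (hω.mono (Finset.union_subset_union (base_mono hMN) h.1))

/-- **New states.** -/
theorem St.extend {β : List Bool → DT (List Bool)} (hβ : ∀ v, Sm (β v) v.length) {N : ℕ}
    (s : St β N) (E : Finset (List Bool)) (ω₀ : List Bool → Bool)
    (h1 : Ag (base N ∪ s.F) s.ω ω₀) (h2 : Cl β (base N ∪ (s.F ∪ E)) ω₀)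
    (h3 : ∀ v ∈ E, v.length < 2 ^ N) :
    ∃ t : St β N, t.F = s.F ∪ E ∧ Ext s t ∧ Ag (base N ∪ (s.F ∪ E)) ω₀ t.ω := by
  classical
  obtain ⟨W, hW1, hW2, hW3, hW4⟩ := completion hβ h2
  have hsub : base N ∪ s.F ⊆ base N ∪ (s.F ∪ E) :=
    Finset.union_subset_union (Finset.Subset.refl _) Finset.subset_union_left
  have hag : Ag (base N ∪ s.F) s.ω W := h1.trans (hW2.mono hsub)
  refine ⟨⟨s.F ∪ E, W, hW1, ?_, ?_, ?_, ?_⟩, rfl, ⟨Finset.subset_union_left, hag⟩, hW2⟩
  · intro z hz
    by_cases hb : true :: z ∈ base N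
    · have hzF : true :: z ∉ s.F := fun h => hz (Finset.mem_union_left _ h)
      rw [hag _ (Finset.mem_union_left _ hb), s.exact z hzF]
      refine (KK_local hβ (fun p hp => ?_)).symm
      refine hag p (Finset.mem_union_left _ ?_)
      rw [mem_base] at hb ⊢
      rw [List.length_cons] at hb
      omega
    · exact hW3 z (by
        rw [Finset.mem_union]
        rintro (h | h)
        · exact hb h
        · exact hz h)
  · intro v hv hN hne
    refine hW4 v ?_ hne
    rw [Finset.mem_union, mem_base]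
    rintro (h | h)
    · omega
    · exact hv h
  · intro z hz hzt ω' hω'
    exact h2 z hz (by rw [← hW2 _ hz]; exact hzt) ω' (hW2.trans hω')
  · intro v hv
    rw [Finset.mem_union] at hv
    rcases hv with hv | hv
    · exact s.short v hv
    · exact h3 v hv

/-- **The next stage.** -/
theorem St.up {β : List Bool → DT (List Bool)} (hβ : ∀ v, Sm (β v) v.length) {N : ℕ}
    (s : St β N) : ∃ t : St β (N + 1), t.F = s.F ∧ t.ω = s.ω ∧ Ext s t := by
  classical
  refine ⟨⟨s.F, s.ω, s.legal, s.exact, ?_, ?_, ?_⟩, rfl, rfl, Finset.Subset.refl _, Ag.refl _ _⟩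
  · intro v hv hN hne
    exact s.zero v hv (by omega) hne
  · intro z hz hzt ω' hω'
    rw [Finset.mem_union] at hz
    rcases hz with hz | hz
    · refine (KK_local hβ (fun p hp => ?_)).mpr (s.legal z hzt)
      refine hω' p (Finset.mem_union_left _ ?_)
      rw [mem_base] at hz ⊢
      rw [List.length_cons] at hz
      omega
    · exact s.closed z (Finset.mem_union_right _ hz) hzt ω'
        (hω'.mono (Finset.union_subset_union (base_mono (by omega)) (Finset.Subset.refl _)))
  · intro v hv
    have := s.short v hv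
    rw [pow_succ]
    omega

/-- **The first state.** -/
theorem exists_init {β : List Bool → DT (List Bool)} (hβ : ∀ v, Sm (β v) v.length) :
    ∃ s : St β 0, s.F = ∅ := by
  classical
  obtain ⟨W, hW1, hW2, hW3, hW4⟩ := completion (D := ∅) (ω := fun _ => false) hβ
    (fun z hz => by simp at hz)
  exact ⟨⟨∅, W, hW1, hW3, fun v hv _ => hW4 v hv, fun z hz => by simp [base] at hz,
    fun v hv => by simp at hv⟩, rfl⟩

/-- **Killing a pair of problems.** -/
theorem St.kill {β : List Bool → DT (List Bool)} (hβ : ∀ v, Sm (β v) v.length) {N : ℕ}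
    (s : St β N) (P : Prb) (hk : P.k ≤ 2 ^ N) {A : List Bool → Bool} (hA : Leg β A)
    (hag : Ag (base N ∪ s.F) s.ω A) (h0 : P.N (orc β A) false) (h1 : P.N (orc β A) true) :
    ∃ t : St β N, Ext s t ∧ t.F.card ≤ s.F.card + 2 * (P.k * P.k) ∧
      ∀ ω', Ag (base N ∪ t.F) t.ω ω' → P.N (orc β ω') false ∧ P.N (orc β ω') true := by
  classical
  obtain ⟨D, hD1, hD2, hD3, hD4⟩ := P.cert hβ (hA.b P.k) le_rfl h0
  obtain ⟨E, hE1, hE2, hE3, hE4⟩ := P.cert hβ (hA.b P.k) le_rfl h1
  have hcl : Cl β (base N ∪ (s.F ∪ (D ∪ E))) A := by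
    intro z hz hzt ω' hω'
    by_cases hzs : true :: z ∈ base N ∪ s.F
    · refine s.closed z hzs (by rw [← hag _ hzs]; exact hzt) ω' (hag.trans (hω'.mono ?_))
      exact Finset.union_subset_union (Finset.Subset.refl _) Finset.subset_union_left
    · have hz' : true :: z ∈ D ∪ E := by
        simp only [Finset.mem_union] at hz hzs ⊢
        tauto
      have hsub : D ∪ E ⊆ base N ∪ (s.F ∪ (D ∪ E)) :=
        Finset.subset_union_right.trans Finset.subset_union_right
      rw [Finset.mem_union] at hz'
      rcases hz' with hz' | hz'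
      · exact hD3 z hz' hzt ω' ((hω'.mono hsub).mono Finset.subset_union_left)
      · exact hE3 z hz' hzt ω' ((hω'.mono hsub).mono Finset.subset_union_right)
  obtain ⟨t, ht1, ht2, ht3⟩ := s.extend hβ (D ∪ E) A hag hcl (fun v hv => by
    rw [Finset.mem_union] at hv
    rcases hv with hv | hv
    · exact lt_of_lt_of_le (hD2 v hv) hk
    · exact lt_of_lt_of_le (hE2 v hv) hk)
  refine ⟨t, ht2, ?_, fun ω' hω' => ?_⟩
  · rw [ht1]
    have a1 := Finset.card_union_le s.F (D ∪ E)
    have a2 := Finset.card_union_le D E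
    omega
  · rw [ht1] at hω'
    have hag' : Ag (base N ∪ (s.F ∪ (D ∪ E))) A ω' := ht3.trans hω'
    have hsub : D ∪ E ⊆ base N ∪ (s.F ∪ (D ∪ E)) :=
      Finset.subset_union_right.trans Finset.subset_union_right
    exact ⟨hD4 ω' ((hag'.mono hsub).mono Finset.subset_union_left),
      hE4 ω' ((hag'.mono hsub).mono Finset.subset_union_right)⟩

end Pool.Agent.H58.BH
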