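import Pool.Agent.H58.BH.Core

set_option autoImplicit false

/-!
# Decision trees which separate two problems of type NP
-/

namespace Pool.Agent.H58.BH

open Pool.Agent.H88.RO Pool.Agent.H88.RO.Tr Pool.Agent.H65.TS Pool.Agent.H65.BP

/-- Two search problems (one for each value of a bit): find `y` such that the result of a program
with clock `k` is as required. -/
structure Prb where
  k : ℕ
  c : Bool → Tr
  arg : Bool → List Bool → Tr
  acc : Bool → List Bool → Tr → Prop

/-- the problem for the bit `b` has a solution -/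
def Prb.N (P : Prb) (O : List Bool → Bool) (b : Bool) : Prop :=
  ∃ y, P.acc b y (U O (P.c b) (P.arg b y) P.k)

/-- `T` tells which problem has a solution, in all legal worlds which contain a closed condition of
at most `R` names which implies that not both problems have a solution. -/
def Sep (β : List Bool → DT (List Bool)) (n R : ℕ) (P : Prb) (T : DT (List Bool)) : Prop :=
  ∀ X, LegB β n X → ∀ D : Finset (List Bool), Cl β D X → (∀ p ∈ D, p.length < n) → D.card ≤ R →
    (∀ A, LegB β n A → Ag D X A → ¬ (P.N (orc β A) false ∧ P.N (orc β A) true)) →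
    ∀ b, P.N (orc β X) b → T.eval X = b

theorem Prb.cert {β : List Bool → DT (List Bool)} (hβ : ∀ v, Sm (β v) v.length) {n : ℕ}
    {ω : List Bool → Bool} (hω : LegB β n ω) (P : Prb) (hk : P.k ≤ n) {b : Bool}
    (h : P.N (orc β ω) b) :
    ∃ D : Finset (List Bool), D.card ≤ P.k * P.k ∧ (∀ v ∈ D, v.length < P.k) ∧ Cl β D ω ∧
      ∀ ω', Ag D ω ω' → P.N (orc β ω') b := by
  obtain ⟨y, hy⟩ := h
  obtain ⟨D, h1, h2, h3, h4⟩ := exists_cert_U hβ hω (P.c b) (P.arg b y) P.k hk
  exact ⟨D, h1, h2, h3, fun ω' hω' => ⟨y, by rw [h4 ω' hω']; exact hy⟩⟩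

section Tree

variable {P : Type} [DecidableEq P]

theorem support_run {S : P → Prop} {k : (P → Bool) → DT P} (hk : ∀ Y, ∀ p ∈ (k Y).support, S p)
    (t : DT P) (ht : ∀ p ∈ t.support, S p) : ∀ Y, ∀ p ∈ (DT.run k t Y).support, S p := by
  induction t with
  | out b => intro Y p hp; exact hk Y p hp
  | ask q l r ihl ihr =>
    intro Y p hp
    simp only [DT.support, Finset.mem_insert, Finset.mem_union] at ht
    simp only [DT.run, DT.support, Finset.mem_insert, Finset.mem_union] at hp
    rcases hp with rfl | hp | hp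
    · exact ht _ (Or.inl rfl)
    · exact ihl (fun p hp => ht p (Or.inr (Or.inl hp))) _ p hp
    · exact ihr (fun p hp => ht p (Or.inr (Or.inr hp))) _ p hp

theorem support_lin (l : List P) : ∀ p ∈ (DT.lin l).support, p ∈ l := by
  induction l with
  | nil => intro p hp; simp [DT.lin, DT.support] at hp
  | cons a l ih =>
    intro p hp
    simp only [DT.lin, DT.support, Finset.mem_insert, Finset.mem_union, or_self] at hp
    rcases hp with rfl | hp
    · simp
    · exact List.mem_cons_of_mem _ (ih p hp)

theorem mkTree_support {S : P → Prop} {Good : (P → Bool) → Prop} {f : (P → Bool) → Bool}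
    {cert : (P → Bool) → Finset P} (hS : ∀ A, Good A → ∀ p ∈ cert A, S p) (n : ℕ) :
    ∀ κ Y, ∀ p ∈ (mkTree Good f cert n κ Y).support, S p := by
  induction n with
  | zero => intro κ Y p hp; simp [mkTree, DT.support] at hp
  | succ n ih =>
    intro κ Y
    rw [mkTree]
    split_ifs with h
    · refine support_run (fun Y' => ih _ Y') _ (fun p hp => ?_) Y
      exact hS _ h.choose_spec.1 p (Finset.mem_toList.mp (support_lin _ p hp))
    · intro p hp; simp [DT.support] at hp

theorem mkTree_false' {Good : (P → Bool) → Prop} {f : (P → Bool) → Bool}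
    {cert : (P → Bool) → Finset P} {X : P → Bool} (E : Finset P)
    (hE : ∀ A, Good A → f A = true → ∃ q ∈ cert A, q ∈ E ∧ A q ≠ X q) (n : ℕ) :
    ∀ κ Y, (∀ q ∈ κ, X q = Y q) → (E \ κ).card ≤ n →
      (mkTree Good f cert n κ Y).eval X = false := by
  induction n with
  | zero =>
    intro κ Y h hn
    rw [mkTree, DT.eval, decide_eq_false_iff_not]
    rintro ⟨A, hA, hfA, hAY⟩
    obtain ⟨q, _, hqE, hne⟩ := hE A hA hfA
    have hqκ : q ∈ κ := by
      by_contra hcon
      have : q ∈ E \ κ := Finset.mem_sdiff.mpr ⟨hqE, hcon⟩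
      rw [Finset.card_eq_zero.mp (Nat.le_zero.mp hn)] at this
      simp at this
    exact hne (by rw [hAY q hqκ, h q hqκ])
  | succ n ih =>
    intro κ Y h hn
    rw [mkTree]
    split_ifs with hex
    · rw [DT.eval_run, DT.path_lin]
      obtain ⟨hA, hfA, hAY⟩ := hex.choose_spec
      set A := hex.choose with hAdef
      refine ih _ _ (fun q hq => ?_) ?_
      · unfold DT.ovr
        rw [Finset.mem_union] at hq
        split_ifs with hm
        · rfl
        · rcases hq with hq | hq
          · exact h q hq
          · exact absurd (Finset.mem_toList.mpr hq) hm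
      · obtain ⟨q, hqA, hqE, hne⟩ := hE A hA hfA
        have hqκ : q ∉ κ := fun hq => hne (by rw [hAY q hq, h q hq])
        have h5 : E \ (κ ∪ cert A) ⊂ E \ κ := by
          rw [Finset.ssubset_iff_of_subset]
          · refine ⟨q, Finset.mem_sdiff.mpr ⟨hqE, hqκ⟩, fun h' => ?_⟩
            rw [Finset.mem_sdiff] at h'
            exact h'.2 (Finset.mem_union_right _ hqA)
          · intro x hx
            rw [Finset.mem_sdiff] at hx ⊢
            exact ⟨hx.1, fun h' => hx.2 (Finset.mem_union_left _ h')⟩
        have := Finset.card_lt_card h5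
        omega
    · rfl

end Tree

/-- **Separating trees.** -/
theorem exists_sep {β : List Bool → DT (List Bool)} (hβ : ∀ v, Sm (β v) v.length) (n R : ℕ)
    (P : Prb) (hk : P.k ≤ n) :
    ∃ T : DT (List Bool), T.depth ≤ (R + P.k * P.k) * (P.k * P.k) ∧
      (∀ p ∈ T.support, p.length < P.k) ∧ Sep β n R P T := by
  classical
  have hc : ∀ A, LegB β n A → ∃ D : Finset (List Bool), D.card ≤ P.k * P.k ∧
      (∀ v ∈ D, v.length < P.k) ∧ Cl β D A ∧
      (P.N (orc β A) true → ∀ ω', Ag D A ω' → P.N (orc β ω') true) := by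
    intro A hA
    by_cases h : P.N (orc β A) true
    · obtain ⟨D, h1, h2, h3, h4⟩ := P.cert hβ hA hk h
      exact ⟨D, h1, h2, h3, fun _ => h4⟩
    · exact ⟨∅, by simp, by simp, fun z hz => by simp at hz, fun h' => absurd h' h⟩
  choose! cert hc1 hc2 hc3 hc4 using hc
  let f : (List Bool → Bool) → Bool := fun A => decide (P.N (orc β A) true)
  refine ⟨mkTree (LegB β n) f cert (R + P.k * P.k) ∅ (fun _ => false),
    mkTree_depth hc1 _ _ _, mkTree_support hc2 _ _ _, ?_⟩
  intro X hX D hD1 hD2 hD3 hD4 b hb
  cases b with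
  | true => exact mkTree_true hX (decide_eq_true hb) _ _ _ (by simp)
  | false =>
    obtain ⟨E, hE1, hE2, hE3, hE4⟩ := P.cert hβ hX hk hb
    refine mkTree_false' (D ∪ E) (fun A hA hfA => ?_) _ _ _ (by simp) ?_
    · by_contra hcon
      push Not at hcon
      have hcl : Cl β (D ∪ E) X := by
        intro z hz hzt ω' hω'
        rw [Finset.mem_union] at hz
        rcases hz with hz | hz
        · exact hD1 z hz hzt ω' (hω'.mono Finset.subset_union_left)
        · exact hE3 z hz hzt ω' (hω'.mono Finset.subset_union_right)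
      obtain ⟨W, hW1, hW2, hW3⟩ := amalgam hcl (hc3 A hA)
        (fun v hv hv' => (hcon v hv' hv).symm)
      exact hD4 W (hW1.b n) (hW2.mono Finset.subset_union_left)
        ⟨hE4 W (hW2.mono Finset.subset_union_right), hc4 A hA (of_decide_eq_true hfA) W hW3⟩
    · rw [Finset.sdiff_empty]
      exact (Finset.card_union_le _ _).trans (Nat.add_le_add hD3 hE1)

/-! ### the choice of `β` -/

/-- the size of the tree for clock `k` and conditions with at most `R` names -/
def rr (k R : ℕ) : ℕ := (R + k * k) * (k * k) + k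

theorem orc_congrβ {β β' : List Bool → DT (List Bool)} {n : ℕ}
    (h : ∀ u : List Bool, u.length < n → β u = β' u) (ω : List Bool → Bool) {q : List Bool}
    (hq : q.length ≤ n) : orc β ω q = orc β' ω q := by
  rcases q with _ | ⟨b, v⟩
  · rfl
  · cases b with
    | false => rfl
    | true =>
      show (β v).eval ω = (β' v).eval ω
      rw [h v (by rw [List.length_cons] at hq; omega)]

theorem Sep_congr {β β' : List Bool → DT (List Bool)} {n : ℕ}
    (h : ∀ u : List Bool, u.length < n → β u = β' u) {R : ℕ} {P : Prb} (hk : P.k ≤ n)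
    {T : DT (List Bool)} (hs : Sep β n R P T) : Sep β' n R P T := by
  have hK : ∀ (ω : List Bool → Bool) (z : List Bool), z.length ≤ n → (KK β' ω z ↔ KK β ω z) := by
    intro ω z hz
    apply KK_congr
    intro q hq
    have := zK_le z
    exact (orc_congrβ h ω (by omega)).symm
  have hN : ∀ (ω : List Bool → Bool) (b : Bool), P.N (orc β' ω) b ↔ P.N (orc β ω) b := by
    intro ω b
    unfold Prb.N
    have e : ∀ y, U (orc β' ω) (P.c b) (P.arg b y) P.k = U (orc β ω) (P.c b) (P.arg b y) P.k :=
      fun y => U_local' _ _ _ (fun q hq => (orc_congrβ h ω (by omega)).symm)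
    simp only [e]
  have hL : ∀ ω, LegB β' n ω ↔ LegB β n ω := by
    intro ω
    constructor
    · intro hl z hz hzt
      exact (hK ω z hz.le).mp (hl z hz hzt)
    · intro hl z hz hzt
      exact (hK ω z hz.le).mpr (hl z hz hzt)
  intro X hX D hD1 hD2 hD3 hD4 b hb
  refine hs X ((hL X).mp hX) D ?_ hD2 hD3 ?_ b ((hN X b).mp hb)
  · intro z hz hzt ω' hω'
    have := hD2 _ hz
    rw [List.length_cons] at this
    exact (hK ω' z (by omega)).mp (hD1 z hz hzt ω' hω')
  · intro A hA hag
    rw [← hN, ← hN]
    exact hD4 A ((hL A).mpr hA) hag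

open Classical in
/-- choose a tree with a given property -/
noncomputable def pick (S : DT (List Bool) → Prop) : DT (List Bool) :=
  if h : ∃ T, S T then h.choose else DT.out false

theorem pick_spec {S : DT (List Bool) → Prop} (h : ∃ T, S T) : S (pick S) := by
  rw [pick, dif_pos h]
  exact h.choose_spec

/-- the requirement for `β v` -/
def Req (prb : List Bool → Prb) (Rf : List Bool → ℕ) (β : List Bool → DT (List Bool))
    (v : List Bool) (T : DT (List Bool)) : Prop :=
  Sm T v.length ∧ (rr (prb v).k (Rf v) * rr (prb v).k (Rf v) ≤ v.length →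
    Sep β v.length (Rf v) (prb v) T)

theorem Sm_out (b : Bool) (n : ℕ) : Sm (DT.out b) n :=
  ⟨0, by simp, by simp [DT.depth], fun p hp => by simp [DT.support] at hp⟩

theorem Req_congr {prb : List Bool → Prb} {Rf : List Bool → ℕ}
    {β β' : List Bool → DT (List Bool)} {v : List Bool}
    (h : ∀ u : List Bool, u.length < v.length → β u = β' u) : Req prb Rf β v = Req prb Rf β' v := by
  have hk : rr (prb v).k (Rf v) * rr (prb v).k (Rf v) ≤ v.length → (prb v).k ≤ v.length := by
    intro hb
    have h1 : (prb v).k ≤ rr (prb v).k (Rf v) := by unfold rr; omega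
    have h2 : rr (prb v).k (Rf v) ≤ rr (prb v).k (Rf v) * rr (prb v).k (Rf v) := Nat.le_mul_self _
    omega
  funext T
  unfold Req
  refine propext (and_congr_right fun _ => ⟨fun hs hb => ?_, fun hs hb => ?_⟩)
  · exact Sep_congr h (hk hb) (hs hb)
  · exact Sep_congr (fun u hu => (h u hu).symm) (hk hb) (hs hb)

theorem exists_Req {prb : List Bool → Prb} {Rf : List Bool → ℕ}
    {β : List Bool → DT (List Bool)} (hβ : ∀ v, Sm (β v) v.length) (v : List Bool) :
    ∃ T, Req prb Rf β v T := by
  by_cases hb : rr (prb v).k (Rf v) * rr (prb v).k (Rf v) ≤ v.length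
  · have h1 : (prb v).k ≤ rr (prb v).k (Rf v) := by unfold rr; omega
    have h2 : rr (prb v).k (Rf v) ≤ rr (prb v).k (Rf v) * rr (prb v).k (Rf v) := Nat.le_mul_self _
    obtain ⟨T, hT1, hT2, hT3⟩ := exists_sep hβ v.length (Rf v) (prb v) (by omega)
    refine ⟨T, ⟨rr (prb v).k (Rf v), hb, ?_, fun p hp => ?_⟩, fun _ => hT3⟩
    · unfold rr; omega
    · exact lt_of_lt_of_le (hT2 p hp) h1
  · exact ⟨DT.out false, Sm_out _ _, fun h => absurd h hb⟩

/-- approximations to `β` -/
noncomputable def bet (prb : List Bool → Prb) (Rf : List Bool → ℕ) : ℕ → List Bool →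
    DT (List Bool)
  | 0, _ => DT.out false
  | k + 1, v => pick (Req prb Rf (bet prb Rf k) v)

theorem exists_beta (prb : List Bool → Prb) (Rf : List Bool → ℕ) :
    ∃ β : List Bool → DT (List Bool), (∀ v, Sm (β v) v.length) ∧
      ∀ v, rr (prb v).k (Rf v) * rr (prb v).k (Rf v) ≤ v.length →
        Sep β v.length (Rf v) (prb v) (β v) := by
  have hSm : ∀ k v, Sm (bet prb Rf k v) v.length := by
    intro k
    induction k with
    | zero => intro v; exact Sm_out _ _
    | succ k ih => intro v; exact (pick_spec (exists_Req ih v)).1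
  have hst : ∀ (v : List Bool) (k : ℕ), v.length < k →
      bet prb Rf k v = bet prb Rf (v.length + 1) v := by
    intro v
    induction hv : v.length using Nat.strong_induction_on generalizing v with
    | _ m ih =>
      subst hv
      intro k hk
      obtain ⟨k, rfl⟩ : ∃ k', k = k' + 1 := ⟨k - 1, by omega⟩
      show pick _ = pick _
      congr 1
      apply Req_congr
      intro u hu
      rw [ih u.length hu u rfl k (by omega), ih u.length hu u rfl v.length hu]
  refine ⟨fun v => bet prb Rf (v.length + 1) v, fun v => hSm _ v, fun v hb => ?_⟩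
  have h1 : Req prb Rf (bet prb Rf v.length) v (bet prb Rf (v.length + 1) v) :=
    pick_spec (exists_Req (hSm _) v)
  have h2 : Req prb Rf (bet prb Rf v.length) v =
      Req prb Rf (fun v => bet prb Rf (v.length + 1) v) v :=
    Req_congr (fun u hu => hst u _ hu)
  rw [h2] at h1
  exact h1.2 hb

end Pool.Agent.H58.BH
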