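import Pool.Agent.H58.BH.Probs

set_option autoImplicit false

/-!
# The world
-/

namespace Pool.Agent.H58.BH

open Pool.Agent.H88.RO Pool.Agent.H88.RO.Tr Pool.Agent.H65.TS Pool.Agent.H65.BP

/-- the windows -/
def win (N₀ : ℕ) : ℕ → ℕ
  | 0 => N₀
  | r + 1 => (win N₀ r + 2) ^ (r + 1)

theorem win_lt_succ (N₀ r : ℕ) : win N₀ r < win N₀ (r + 1) := by
  have h : (win N₀ r + 2) ^ 1 ≤ (win N₀ r + 2) ^ (r + 1) :=
    Nat.pow_le_pow_right (by omega) (by omega)
  rw [pow_one] at h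
  show win N₀ r < (win N₀ r + 2) ^ (r + 1)
  omega

theorem win_strictMono (N₀ : ℕ) : StrictMono (win N₀) := strictMono_nat_of_lt_succ (win_lt_succ N₀)

theorem le_win (N₀ r : ℕ) : N₀ ≤ win N₀ r := (win_strictMono N₀).monotone (Nat.zero_le r)

/-- the families active at stage `N` -/
def Jl (N₀ N : ℕ) : List ℕ := (List.range N).filter (fun j => decide (win N₀ (2 * j + 2) ≤ N))

theorem mem_Jl {N₀ N j : ℕ} : j ∈ Jl N₀ N ↔ j < N ∧ win N₀ (2 * j + 2) ≤ N := by
  simp [Jl]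

theorem length_Jl (N₀ N : ℕ) : (Jl N₀ N).length ≤ N := by
  refine (List.length_filter_le _ _).trans ?_
  simp

theorem Jl_nil {N₀ N : ℕ} (h : N < N₀) : Jl N₀ N = [] := by
  rw [List.eq_nil_iff_forall_not_mem]
  intro j hj
  have := (mem_Jl.mp hj).2
  have := le_win N₀ (2 * j + 2)
  omega

/-- the clock of a machine -/
def Tc (t : ℕ → ℕ) (p : Tr × Polynomial ℕ) (n : ℕ) : ℕ := (size p.1 + 10) * p.2.eval (t n) + 10

/-- the programs to be fooled at stage `N` -/
def Cl' (t : ℕ → ℕ) (μ : ℕ → Tr × Polynomial ℕ) (N₀ N : ℕ) : List (Tr × ℕ) :=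
  if N₀ ≤ N then
    ((List.range N).filter (fun i => decide (Tc t (μ i) (N / 2) * Tc t (μ i) (N / 2) + 1 ≤
      hh t N))).map (fun i => ((μ i).1, Tc t (μ i) (N / 2)))
  else []

theorem mem_Cl' {t : ℕ → ℕ} {μ : ℕ → Tr × Polynomial ℕ} {N₀ N : ℕ} {p : Tr × ℕ}
    (hp : p ∈ Cl' t μ N₀ N) : N₀ ≤ N ∧ p.2 * p.2 + 1 ≤ hh t N := by
  unfold Cl' at hp
  split_ifs at hp with h
  · rw [List.mem_map] at hp
    obtain ⟨i, hi, rfl⟩ := hp
    rw [List.mem_filter, decide_eq_true_eq] at hi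
    exact ⟨h, hi.2⟩
  · simp at hp

theorem sum_Cl' (t : ℕ → ℕ) (μ : ℕ → Tr × Polynomial ℕ) (N₀ N : ℕ) :
    ((Cl' t μ N₀ N).map (fun p => p.2 * p.2 + 1)).sum ≤ N * hh t N := by
  have h1 : ∀ x ∈ (Cl' t μ N₀ N).map (fun p => p.2 * p.2 + 1), x ≤ hh t N := by
    intro x hx
    rw [List.mem_map] at hx
    obtain ⟨p, hp, rfl⟩ := hx
    exact (mem_Cl' hp).2
  have h2 := List.sum_le_card_nsmul _ _ h1
  rw [List.length_map, smul_eq_mul] at h2
  refine h2.trans (Nat.mul_le_mul_right _ ?_)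
  unfold Cl'
  split_ifs
  · rw [List.length_map]
    refine (List.length_filter_le _ _).trans ?_
    simp
  · simp

/-- **Windows without kills.** -/
theorem exists_quiet {β : List Bool → DT (List Bool)} (fam : ℕ → Set Prb) (s : ∀ N, St β N)
    (hs : ∀ M N, M ≤ N → Ext (s M) (s N)) (N₀ r₀ : ℕ) :
    ∃ r ≥ r₀, ∀ N, win N₀ r ≤ N → N < win N₀ (r + 1) →
      ¬ ∃ j ∈ Jl N₀ N, ¬ Dead fam j (s N) ∧ Dead fam j (s (N + 1)) := by
  by_contra hcon
  push Not at hcon
  choose! Nr h1 h2 jr h3 h4 h5 using hcon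
  have hj : ∀ r ≥ r₀, 2 * jr r + 2 ≤ r := by
    intro r hr
    have a1 := (mem_Jl.mp (h3 r hr)).2
    have a2 := h2 r hr
    have a3 : win N₀ (2 * jr r + 2) < win N₀ (r + 1) := by omega
    have := (win_strictMono N₀).lt_iff_lt.mp a3
    omega
  have hinj : ∀ r ≥ r₀, ∀ r' ≥ r₀, r < r' → jr r ≠ jr r' := by
    intro r hr r' hr' hlt he
    have a1 : win N₀ (r + 1) ≤ win N₀ r' := (win_strictMono N₀).monotone hlt
    have a2 := h2 r hr
    have a3 := h1 r' hr'
    have a4 : Dead fam (jr r) (s (Nr r')) := (h5 r hr).ext (by omega) (hs _ _ (by omega))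
    rw [he] at a4
    exact h4 r' hr' a4
  have hcard : (Finset.range (r₀ + 1)).card < (Finset.Ico r₀ (2 * r₀ + 4)).card := by
    rw [Finset.card_range, Nat.card_Ico]
    omega
  obtain ⟨r, hr, r', hr', hne, he⟩ := Finset.exists_ne_map_eq_of_card_lt_of_maps_to hcard
    (f := jr) (fun r hr => by
      rw [Finset.coe_Ico, Set.mem_Ico] at hr
      have := hj r hr.1
      rw [Finset.coe_range, Set.mem_Iio]
      omega)
  rw [Finset.mem_Ico] at hr hr'
  rcases lt_or_gt_of_ne hne with h | h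
  · exact hinj r hr.1 r' hr'.1 h he
  · exact hinj r' hr'.1 r hr.1 h he.symm

/-- **The world.** -/
theorem exists_world {t : ℕ → ℕ} (ht : Monotone t)
    (h : ∀ k, ∃ n₀, ∀ n ≥ n₀, t (n ^ k) ≤ 2 ^ n) :
    ∃ (β : List Bool → DT (List Bool)) (Ω : List Bool → Bool), Leg β Ω ∧
      (∀ φ : Fam, (∀ P ∈ fm φ, ¬ (P.N (orc β Ω) false ∧ P.N (orc β Ω) true)) →
        Ev (fun N => ∀ P ∈ fm φ, ∀ v, prb v = P → P.k ≤ 2 ^ (N / 32) → 2 ^ (N + 2) ≤ Rf v →
          rr P.k (Rf v) * rr P.k (Rf v) ≤ v.length → Rf v ≤ v.length →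
          ∀ b, P.N (orc β Ω) b → orc β Ω (true :: v) = b)) ∧
      (∀ p : Tr × Polynomial ℕ, Ev (fun n => Wrong β n p.1 (Tc t p n) Ω)) ∧
      ∀ d m₀ : ℕ, ∃ m ≥ m₀, ∃ F : Finset (List Bool), F.card < 2 ^ m ∧
        ∀ z, z.length + 2 ≤ (m + 2) ^ d → KK β Ω z → Ω (true :: z) = false → true :: z ∈ F := by
  obtain ⟨β, hβ, hsep⟩ := exists_beta prb Rf
  obtain ⟨φe, hφe⟩ := exists_famEnum
  obtain ⟨μ, hμ⟩ := exists_machEnum
  let fam : ℕ → Set Prb := fun j => fm (φe j)
  obtain ⟨n₁, hn₁⟩ := (ev1 ht h).and (((ev_poly 1).and ev2).and (Ev.ge 10))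
  set N₀ := 2 * n₁ + 10 with hN₀
  have hE1 : ∀ N ≥ N₀, N * (2 * (2 ^ (N / 32) * 2 ^ (N / 32))) + N * hh t N ≤ 2 ^ (N / 8) :=
    fun N hN => (hn₁ N (by omega)).1
  have hE0 : ∀ N ≥ N₀, N + 2 ≤ 2 ^ (N / 64) := by
    intro N hN
    have := (hn₁ N (by omega)).2.1.1
    rwa [pow_one] at this
  have hE2 : ∀ n, N₀ ≤ 2 * n + 1 → (2 * n + 2) * 2 ^ ((2 * n + 2) / 8) < 2 ^ n :=
    fun n hn => (hn₁ n (by omega)).2.1.2
  let bd : ℕ → ℕ := fun N => N * 2 ^ (N / 8)
  have hbdle : ∀ N ≥ N₀, bd N ≤ 2 ^ N := by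
    intro N hN
    have a1 := hE0 N hN
    calc N * 2 ^ (N / 8) ≤ 2 ^ (N / 64) * 2 ^ (N / 8) := Nat.mul_le_mul_right _ (by omega)
      _ = 2 ^ (N / 64 + N / 8) := by rw [← pow_add]
      _ ≤ 2 ^ N := Nat.pow_le_pow_right (by norm_num) (by omega)
  have hhle : ∀ N ≥ N₀, hh t N ≤ 2 ^ N := by
    intro N hN
    have a1 := hE1 N hN
    have a2 : hh t N ≤ N * hh t N := Nat.le_mul_of_pos_left _ (by omega)
    have a3 : 2 ^ (N / 8) ≤ 2 ^ N := Nat.pow_le_pow_right (by norm_num) (by omega)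
    omega
  obtain ⟨s, hs0, hsb, hss⟩ := exists_seq hβ fam (fun N => 2 ^ (N / 32))
    (fun N => Nat.pow_le_pow_right (by norm_num) (by omega)) (Jl N₀) (Cl' t μ N₀)
    (fun N p hp => by
      obtain ⟨a1, a2⟩ := mem_Cl' hp
      have a3 := hhle N a1
      have a4 : p.2 ≤ p.2 * p.2 := Nat.le_mul_self _
      omega) bd
    (fun N => by
      have a5 : 2 ^ (N / 8) ≤ 2 ^ ((N + 1) / 8) := Nat.pow_le_pow_right (by norm_num) (by omega)
      have a6 : N * 2 ^ (N / 8) ≤ N * 2 ^ ((N + 1) / 8) := Nat.mul_le_mul_left _ a5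
      have a7 : (N + 1) * 2 ^ ((N + 1) / 8) = N * 2 ^ ((N + 1) / 8) + 2 ^ ((N + 1) / 8) := by ring
      have a8 : 0 < 2 ^ (N / 8) := Nat.two_pow_pos _
      show N * 2 ^ (N / 8) + _ + _ ≤ (N + 1) * 2 ^ ((N + 1) / 8)
      rcases Nat.lt_or_ge N N₀ with hlt | hge
      · have e1 : Cl' t μ N₀ N = [] := by rw [Cl', if_neg (by omega)]
        rw [Jl_nil hlt, e1]
        simp only [List.length_nil, zero_mul, List.map_nil, List.sum_nil]
        omega
      · have a1 := hE1 N hge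
        have a2 := sum_Cl' t μ N₀ N
        have a3 : (Jl N₀ N).length * (2 * (2 ^ (N / 32) * 2 ^ (N / 32))) ≤
          N * (2 * (2 ^ (N / 32) * 2 ^ (N / 32))) := Nat.mul_le_mul_right _ (length_Jl _ _)
        omega)
    (fun n hn => by
      obtain ⟨p, hp⟩ := List.exists_mem_of_ne_nil _ hn
      exact hE2 n (mem_Cl' hp).1)
  have hext : ∀ M N, M ≤ N → Ext (s M) (s N) := by
    intro M N h
    induction h with
    | refl => exact Ext.refl _
    | step h ih => exact ih.trans h (hss _).1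
  obtain ⟨Ω, hΩ1, hΩ2, hΩ3⟩ := exists_limit hβ s (fun N => (hss N).1)
  refine ⟨β, Ω, hΩ1, ?_, ?_, ?_⟩
  · -- separation
    intro φ hφ
    obtain ⟨j, hj⟩ := hφe φ
    refine ⟨max (win N₀ (2 * j + 2)) (j + 1), fun N hN P hP v hv hk hR hrr hRv b hb => ?_⟩
    have hN1 : win N₀ (2 * j + 2) ≤ N := le_trans (le_max_left _ _) hN
    have hN2 : j + 1 ≤ N := le_trans (le_max_right _ _) hN
    have hN3 : N₀ ≤ N := (le_win N₀ _).trans hN1
    have hjJ : j ∈ Jl N₀ N := mem_Jl.mpr ⟨by omega, hN1⟩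
    have hPj : P ∈ fam j := by
      show P ∈ fm (φe j)
      rw [hj]; exact hP
    have hsafe : Safe fam j (2 ^ (N / 32)) (s (N + 1)) := by
      rcases (hss N).2.1 j hjJ with hd | hsf
      · obtain ⟨P', hP', hd⟩ := hd
        have hP'' : P' ∈ fm φ := by
          have : P' ∈ fm (φe j) := hP'
          rwa [hj] at this
        exact absurd (hd Ω (hΩ2 (N + 1))) (hφ P' hP'')
      · exact hsf
    have hkv : P.k ≤ v.length := by
      have b1 : P.k ≤ rr P.k (Rf v) := by unfold rr; omega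
      have b2 : rr P.k (Rf v) ≤ rr P.k (Rf v) * rr P.k (Rf v) := Nat.le_mul_self _
      omega
    have h2N : 2 ^ (N + 2) = 2 ^ (N + 1) + 2 ^ (N + 1) := by rw [pow_succ _ (N + 1)]; ring
    have hDcl : Cl β (base (N + 1) ∪ (s (N + 1)).F) Ω := by
      intro z hz hzt ω' hω'
      exact (s (N + 1)).closed z hz (by rw [← hΩ2 (N + 1) _ hz]; exact hzt) ω'
        ((hΩ2 (N + 1)).trans hω')
    have hSep := hsep v (by rw [hv]; exact hrr)
    rw [hv] at hSep
    refine hSep Ω (hΩ1.b _) (base (N + 1) ∪ (s (N + 1)).F) hDcl ?_ ?_ ?_ b hb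
    · intro p hp
      rw [Finset.mem_union, mem_base] at hp
      have c1 : N + 1 < 2 ^ (N + 1) := Nat.lt_two_pow_self
      rcases hp with hp | hp
      · omega
      · have := (s (N + 1)).short p hp
        omega
    · have c1 := Finset.card_union_le (base (N + 1)) (s (N + 1)).F
      have c2 := card_base (N + 1)
      have c3 := hsb (N + 1)
      have c4 := hbdle (N + 1) (by omega)
      omega
    · rintro A hA hag ⟨hA0, hA1⟩
      obtain ⟨D0, -, -, hD03, hD04⟩ := P.cert hβ hA hkv hA0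
      obtain ⟨D1, -, -, hD13, hD14⟩ := P.cert hβ hA hkv hA1
      have hcl : Cl β (D0 ∪ D1) A := by
        intro z hz hzt ω' hω'
        rw [Finset.mem_union] at hz
        rcases hz with hz | hz
        · exact hD03 z hz hzt ω' (hω'.mono Finset.subset_union_left)
        · exact hD13 z hz hzt ω' (hω'.mono Finset.subset_union_right)
      obtain ⟨W, hW1, hW2, hW3⟩ := amalgam hDcl hcl (fun v hv _ => (hag v hv).symm)
      refine hsafe P hPj hk W hW1 ((hΩ2 (N + 1)).trans hW2)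
        ⟨hD04 W (hW3.mono Finset.subset_union_left), hD14 W (hW3.mono Finset.subset_union_right)⟩
  · -- hardness
    intro p
    obtain ⟨i, hi⟩ := hμ p
    obtain ⟨n₂, hn₂⟩ := ev_clock t (((Polynomial.C (size p.1 + 10) * p.2 + 10) *
      (Polynomial.C (size p.1 + 10) * p.2 + 10)) + 1)
    refine ⟨max n₂ (N₀ + i + 1), fun n hn => ?_⟩
    have hn3 : n₂ ≤ n := le_trans (le_max_left _ _) hn
    have hn4 : N₀ + i + 1 ≤ n := le_trans (le_max_right _ _) hn
    have h1 : Tc t p n * Tc t p n + 1 ≤ hh t n := by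
      have := hn₂ n hn3
      simp only [Polynomial.eval_add, Polynomial.eval_mul, Polynomial.eval_C,
        Polynomial.eval_ofNat, Polynomial.eval_one] at this
      exact this
    have h2 : hh t n ≤ hh t (2 * n + 1) := hh_mono ht (by omega)
    have h3 : (p.1, Tc t p n) ∈ Cl' t μ N₀ (2 * n + 1) := by
      rw [Cl', if_pos (by omega), List.mem_map]
      refine ⟨i, ?_, ?_⟩
      · rw [List.mem_filter, decide_eq_true_eq, List.mem_range, hi]
        have e : (2 * n + 1) / 2 = n := by omega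
        rw [e]
        exact ⟨by omega, h1.trans h2⟩
      · rw [hi]
        have e : (2 * n + 1) / 2 = n := by omega
        rw [e]
    exact (hss (2 * n + 1)).2.2.2 n rfl _ h3 Ω (hΩ2 _)
  · -- density
    intro d m₀
    obtain ⟨n₃, hn₃⟩ := ev3 ht h (d + 1)
    obtain ⟨r, hr, hquiet⟩ := exists_quiet fam s hext N₀ (d + m₀ + n₃ + 1)
    have har : r ≤ win N₀ r := (win_strictMono N₀).le_apply
    set m := win N₀ r with hm
    set M := (m + 2) ^ (d + 1) with hM
    have hMr : M ≤ win N₀ (r + 1) := Nat.pow_le_pow_right (by omega) (by omega)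
    have hmM : m ≤ M := by
      have : (m + 2) ^ 1 ≤ (m + 2) ^ (d + 1) := Nat.pow_le_pow_right (by omega) (by omega)
      rw [pow_one] at this
      omega
    have hgrow : ∀ k, m + k ≤ M → (s (m + k)).F.card ≤ bd m + k * (M * hh t M) := by
      intro k
      induction k with
      | zero => intro _; simpa using hsb m
      | succ k ih =>
        intro hk
        have b1 := ih (by omega)
        have b2 := (hss (m + k)).2.2.1
        rcases b2 with b2 | b2
        · have b3 := sum_Cl' t μ N₀ (m + k)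
          have b4 : (m + k) * hh t (m + k) ≤ M * hh t M :=
            Nat.mul_le_mul (by omega) (hh_mono ht (by omega))
          have b5 : (k + 1) * (M * hh t M) = k * (M * hh t M) + M * hh t M := by ring
          show (s (m + k + 1)).F.card ≤ _
          omega
        · exact absurd b2 (hquiet (m + k) (by omega) (by omega))
    refine ⟨m, by omega, (s M).F, ?_, ?_⟩
    · have b1 := hgrow (M - m) (by omega)
      rw [Nat.add_sub_cancel' hmM] at b1
      have b2 : m * 2 ^ (m / 8) + M * (M * hh t M) < 2 ^ m := hn₃ m (by omega)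
      have b3 : (M - m) * (M * hh t M) ≤ M * (M * hh t M) := Nat.mul_le_mul_right _ (by omega)
      have b4 : bd m = m * 2 ^ (m / 8) := rfl
      omega
    · intro z hz hzK hzt
      have b1 : (m + 2) ^ d ≤ M := Nat.pow_le_pow_right (by omega) (by omega)
      exact (hext (z.length + 2) M (by omega)).1 (hΩ3 z hzK hzt)

end Pool.Agent.H58.BH
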